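import Mathlib

/-! One linear form in `(a, d)` at one or two integers `q`: mean values of the von Mangoldt function over boxes of pairs
`(a, d)` in residue classes, from the equidistribution of the primes in progressions to small moduli. -/

set_option autoImplicit false

namespace Pool.Agent.H570.LQ

open Finset

/-- the von Mangoldt function -/
noncomputable abbrev vM (n : ℕ) : ℝ := ArithmeticFunction.vonMangoldt n

/-- sums over progressions -/
noncomputable def lamAP (y m c : ℕ) : ℝ := ∑ n ∈ (Icc 1 y).filter (fun n => n ≡ c [MOD m]), vM n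

/-- primes up to `N` are equidistributed with error `E` to all moduli up to `R` -/
def AP (N : ℕ) (E : ℝ) (R : ℕ) : Prop := ∀ m : ℕ, 1 ≤ m → m ≤ R → ∀ c y : ℕ, y ≤ N →
  |lamAP y m c - (if c.Coprime m then (y : ℝ) / (Nat.totient m : ℝ) else 0)| ≤ E

/-- integers in `(s, s + H]` congruent to `c` -/
def cls (s H W c : ℕ) : Finset ℕ := (Ioc s (s + H)).filter (fun a => a ≡ c [MOD W])

lemma vM_nonneg (n : ℕ) : 0 ≤ vM n := ArithmeticFunction.vonMangoldt_nonneg

lemma card_cls_le (s H W c : ℕ) (hW : 1 ≤ W) : ((cls s H W c).card : ℝ) ≤ H / W + 1 := by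
  unfold cls
  have h := Nat.Ioc_filter_modEq_card (r := W) s (s + H) hW c
  have hW' : (0 : ℚ) < W := by exact_mod_cast hW
  have h2 : ((#{x ∈ Ioc s (s + H) | x ≡ c [MOD W]} : ℤ) : ℚ) ≤ (H : ℚ) / W + 1 := by
    rw [h]
    have h3 : (max (⌊(((s + H : ℕ) : ℚ) - c) / W⌋ - ⌊((s : ℚ) - c) / W⌋) 0 : ℤ) ≤ (H : ℚ) / W + 1 := by
      rcases le_total (⌊(((s + H : ℕ) : ℚ) - c) / W⌋ - ⌊((s : ℚ) - c) / W⌋) 0 with h4 | h4
      · rw [max_eq_right h4]; push_cast; positivity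
      · rw [max_eq_left h4]
        have a1 := Int.floor_le ((((s + H : ℕ) : ℚ) - c) / W)
        have a2 := Int.lt_floor_add_one (((s : ℚ) - c) / W)
        have a3 : (((s + H : ℕ) : ℚ) - c) / W = ((s : ℚ) - c) / W + H / W := by push_cast; ring
        rw [a3] at a1
        push_cast
        rw [← a3] at a1
        push_cast at a1 a2 a3
        linarith
    exact h3
  have h4 := (Rat.cast_le (K := ℝ)).2 h2
  push_cast at h4
  exact h4

lemma le_card_cls (s H W c : ℕ) (hW : 1 ≤ W) : (H : ℝ) / W - 1 ≤ ((cls s H W c).card : ℝ) := by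
  unfold cls
  have h := Nat.Ioc_filter_modEq_card (r := W) s (s + H) hW c
  have hW' : (0 : ℚ) < W := by exact_mod_cast hW
  have h2 : (H : ℚ) / W - 1 ≤ ((#{x ∈ Ioc s (s + H) | x ≡ c [MOD W]} : ℤ) : ℚ) := by
    rw [h]
    have a1 := Int.lt_floor_add_one ((((s + H : ℕ) : ℚ) - c) / W)
    have a2 := Int.floor_le (((s : ℚ) - c) / W)
    have a3 : (((s + H : ℕ) : ℚ) - c) / W = ((s : ℚ) - c) / W + H / W := by push_cast; ring
    have a4 : (⌊(((s + H : ℕ) : ℚ) - c) / W⌋ - ⌊((s : ℚ) - c) / W⌋ : ℤ) ≤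
        (max (⌊(((s + H : ℕ) : ℚ) - c) / W⌋ - ⌊((s : ℚ) - c) / W⌋) 0 : ℤ) := le_max_left _ _
    have a5 : ((⌊(((s + H : ℕ) : ℚ) - c) / W⌋ - ⌊((s : ℚ) - c) / W⌋ : ℤ) : ℚ) ≤
        ((max (⌊(((s + H : ℕ) : ℚ) - c) / W⌋ - ⌊((s : ℚ) - c) / W⌋) 0 : ℤ) : ℚ) := by exact_mod_cast a4
    refine le_trans ?_ a5
    push_cast at a1 a2 a3 ⊢
    linarith
  have h4 := (Rat.cast_le (K := ℝ)).2 h2
  push_cast at h4
  exact h4

lemma lamAP_sub (u v m c : ℕ) (huv : u ≤ v) :
    ∑ n ∈ (Ioc u v).filter (fun n => n ≡ c [MOD m]), vM n = lamAP v m c - lamAP u m c := by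
  unfold lamAP
  rw [eq_sub_iff_add_eq, ← Finset.sum_union]
  · congr 1
    ext n
    simp only [mem_union, mem_filter, mem_Ioc, mem_Icc]
    constructor
    · rintro (⟨⟨h1, h2⟩, h3⟩ | ⟨⟨h1, h2⟩, h3⟩)
      · exact ⟨⟨by omega, h2⟩, h3⟩
      · exact ⟨⟨h1, by omega⟩, h3⟩
    · rintro ⟨⟨h1, h2⟩, h3⟩
      rcases Nat.lt_or_ge u n with h | h
      · exact Or.inl ⟨⟨h, h2⟩, h3⟩
      · exact Or.inr ⟨⟨h1, h⟩, h3⟩
  · rw [Finset.disjoint_left]
    intro n h1 h2
    simp only [mem_filter, mem_Ioc, mem_Icc] at h1 h2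
    omega

lemma AP_Ioc {N : ℕ} {E : ℝ} {R : ℕ} (h : AP N E R) (m : ℕ) (hm : 1 ≤ m) (hmR : m ≤ R) (c u v : ℕ) (huv : u ≤ v)
    (hv : v ≤ N) :
    |∑ n ∈ (Ioc u v).filter (fun n => n ≡ c [MOD m]), vM n -
      (if c.Coprime m then ((v : ℝ) - u) / (Nat.totient m : ℝ) else 0)| ≤ 2 * E := by
  rw [lamAP_sub u v m c huv]
  have h1 := h m hm hmR c v hv
  have h2 := h m hm hmR c u (le_trans huv hv)
  rw [abs_le] at h1 h2 ⊢
  split_ifs at h1 h2 ⊢ with h3
  · rw [sub_div]; constructor <;> linarith [h1.1, h1.2, h2.1, h2.2]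
  · constructor <;> linarith [h1.1, h1.2, h2.1, h2.2]

/-- the sum over `a` for fixed `d` -/
lemma inner_a (s H W α x : ℕ) :
    ∑ a ∈ cls s H W α, vM (a + x) = ∑ n ∈ (Ioc (s + x) (s + x + H)).filter (fun n => n ≡ α + x [MOD W]), vM n := by
  unfold cls
  refine Finset.sum_bij (fun a _ => a + x) ?_ ?_ ?_ ?_
  · intro a ha
    simp only [mem_filter, mem_Ioc] at ha ⊢
    exact ⟨⟨by omega, by omega⟩, ha.2.add_right x⟩
  · intro a _ b _ h; exact Nat.add_right_cancel h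
  · intro n hn
    simp only [mem_filter, mem_Ioc] at hn
    refine ⟨n - x, ?_, by omega⟩
    simp only [mem_filter, mem_Ioc]
    refine ⟨⟨by omega, by omega⟩, ?_⟩
    have : (n - x) + x ≡ α + x [MOD W] := by
      rw [Nat.sub_add_cancel (by omega)]; exact hn.2
    exact Nat.ModEq.add_right_cancel' x this
  · intro a _; rfl

/-- sum over pairs of the von Mangoldt function at one linear form -/
noncomputable def S1 (s t H W α δ q : ℕ) : ℝ := ∑ d ∈ cls t H W δ, ∑ a ∈ cls s H W α, vM (a + q * d)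

/-- sum over pairs of the product of two values -/
noncomputable def S2 (s t H W α δ q q' : ℕ) : ℝ :=
  ∑ d ∈ cls t H W δ, ∑ a ∈ cls s H W α, vM (a + q * d) * vM (a + q' * d)

lemma inner_est {N : ℕ} {E : ℝ} {R : ℕ} (h : AP N E R) (s t H W α δ q : ℕ) (hW : 1 ≤ W) (hWR : W ≤ R)
    (hcop : (α + q * δ).Coprime W) (hN : s + q * (t + H) + H ≤ N) (d : ℕ) (hd : d ∈ cls t H W δ) :
    |∑ a ∈ cls s H W α, vM (a + q * d) - H / (Nat.totient W : ℝ)| ≤ 2 * E := by
  simp only [cls, mem_filter, mem_Ioc] at hd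
  rw [inner_a]
  have hqd : q * d ≤ q * (t + H) := Nat.mul_le_mul_left q hd.1.2
  have h1 := AP_Ioc h W hW hWR (α + q * d) (s + q * d) (s + q * d + H) (by omega) (by omega)
  have h2 : (α + q * d).Coprime W := by
    have h3 : α + q * d ≡ α + q * δ [MOD W] := (hd.2.mul_left q).add_left α
    have h4 := h3.gcd_eq
    unfold Nat.Coprime at hcop ⊢
    rw [h4]; exact hcop
  rw [if_pos h2] at h1
  have h5 : (((s + q * d + H : ℕ) : ℝ) - ((s + q * d : ℕ) : ℝ)) = H := by push_cast; ring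
  rw [h5] at h1
  exact h1

lemma S1_est {N : ℕ} {E : ℝ} {R : ℕ} (h : AP N E R) (hE : 0 ≤ E) (s t H W α δ q : ℕ) (hW : 1 ≤ W) (hWR : W ≤ R)
    (hcop : (α + q * δ).Coprime W) (hN : s + q * (t + H) + H ≤ N) (hH : 1 ≤ H) :
    |S1 s t H W α δ q - (H : ℝ) ^ 2 / (W * (Nat.totient W : ℝ))| ≤ (4 * E + 1) * H := by
  unfold S1
  have hφ : (1 : ℝ) ≤ (Nat.totient W : ℝ) := by exact_mod_cast Nat.totient_pos.2 hW
  have hWr : (1 : ℝ) ≤ W := by exact_mod_cast hW
  have hHr : (1 : ℝ) ≤ H := by exact_mod_cast hH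
  have h1 : |∑ d ∈ cls t H W δ, ∑ a ∈ cls s H W α, vM (a + q * d) - (cls t H W δ).card * (H / (Nat.totient W : ℝ))| ≤
      (cls t H W δ).card * (2 * E) := by
    rw [← nsmul_eq_mul, ← Finset.sum_const, ← Finset.sum_sub_distrib, ← nsmul_eq_mul, ← Finset.sum_const]
    exact (Finset.abs_sum_le_sum_abs _ _).trans (Finset.sum_le_sum fun d hd =>
      inner_est h s t H W α δ q hW hWR hcop hN d hd)
  have h2 := card_cls_le t H W δ hW
  have h3 := le_card_cls t H W δ hW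
  have h4 : (H : ℝ) / W ≤ H := div_le_self (by linarith) hWr
  have h5 : (H : ℝ) / (Nat.totient W : ℝ) ≤ H := div_le_self (by linarith) hφ
  have h5' : 0 ≤ (H : ℝ) / (Nat.totient W : ℝ) := by positivity
  have h6 : (H : ℝ) ^ 2 / (W * (Nat.totient W : ℝ)) = (H / W) * (H / (Nat.totient W : ℝ)) := by
    field_simp
  rw [h6]
  have h7 : |((cls t H W δ).card : ℝ) * (H / (Nat.totient W : ℝ)) - (H / W) * (H / (Nat.totient W : ℝ))| ≤ H := by
    rw [← sub_mul, abs_mul, abs_of_nonneg h5']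
    have : |((cls t H W δ).card : ℝ) - H / W| ≤ 1 := by
      rw [abs_le]; constructor <;> linarith
    calc _ ≤ 1 * (H / (Nat.totient W : ℝ)) := mul_le_mul_of_nonneg_right this h5'
      _ ≤ H := by linarith
  have h8 : ((cls t H W δ).card : ℝ) * (2 * E) ≤ 4 * E * H := by
    have : ((cls t H W δ).card : ℝ) ≤ 2 * H := by linarith
    nlinarith
  rw [abs_le] at h1 h7 ⊢
  constructor <;> linarith [h1.1, h1.2, h7.1, h7.2]

/-- the map `a ↦ a + x` -/
lemma inner_f (f : ℕ → ℝ) (s H W α x : ℕ) :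
    ∑ a ∈ cls s H W α, f (a + x) = ∑ n ∈ (Ioc (s + x) (s + x + H)).filter (fun n => n ≡ α + x [MOD W]), f n := by
  unfold cls
  refine Finset.sum_bij (fun a _ => a + x) ?_ ?_ ?_ ?_
  · intro a ha
    simp only [mem_filter, mem_Ioc] at ha ⊢
    exact ⟨⟨by omega, by omega⟩, ha.2.add_right x⟩
  · intro a _ b _ h; exact Nat.add_right_cancel h
  · intro n hn
    simp only [mem_filter, mem_Ioc] at hn
    refine ⟨n - x, ?_, by omega⟩
    simp only [mem_filter, mem_Ioc]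
    refine ⟨⟨by omega, by omega⟩, ?_⟩
    have : (n - x) + x ≡ α + x [MOD W] := by
      rw [Nat.sub_add_cancel (by omega)]; exact hn.2
    exact Nat.ModEq.add_right_cancel' x this
  · intro a _; rfl

/-- the map `d ↦ m + D d` -/
lemma inner_d (m D W δ u v : ℕ) (hD : 1 ≤ D) :
    ∑ d ∈ (Ioc u v).filter (fun d => d ≡ δ [MOD W]), vM (m + D * d) =
      ∑ n ∈ (Ioc (m + D * u) (m + D * v)).filter (fun n => n ≡ m + D * δ [MOD (D * W)]), vM n := by
  refine Finset.sum_bij (fun d _ => m + D * d) ?_ ?_ ?_ ?_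
  · intro d hd
    simp only [mem_filter, mem_Ioc] at hd ⊢
    refine ⟨⟨?_, ?_⟩, ?_⟩
    · have := Nat.mul_lt_mul_of_pos_left hd.1.1 hD; omega
    · have := Nat.mul_le_mul_left D hd.1.2; omega
    · exact (Nat.ModEq.mul_left' D hd.2).add_left m
  · intro a _ b _ h
    have : D * a = D * b := by simpa using h
    exact Nat.eq_of_mul_eq_mul_left hD this
  · intro n hn
    simp only [mem_filter, mem_Ioc] at hn
    have hmn : m ≤ n := by
      have := Nat.zero_le (D * u); omega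
    obtain ⟨e, rfl⟩ := Nat.exists_eq_add_of_le hmn
    have h1 : e ≡ D * δ [MOD (D * W)] := Nat.ModEq.add_left_cancel' m hn.2
    have h2 : e ≡ D * δ [MOD D] := h1.of_mul_right W
    have h3 : D ∣ e := by
      have h4 : e ≡ 0 [MOD D] := h2.trans (by simpa using (Nat.modEq_zero_iff_dvd.2 (Dvd.intro _ rfl)))
      exact Nat.modEq_zero_iff_dvd.1 h4
    obtain ⟨d, rfl⟩ := h3
    refine ⟨d, ?_, rfl⟩
    simp only [mem_filter, mem_Ioc]
    refine ⟨⟨?_, ?_⟩, ?_⟩
    · have h5 : D * u < D * d := by omega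
      exact Nat.lt_of_mul_lt_mul_left h5
    · have h5 : D * d ≤ D * v := by omega
      exact Nat.le_of_mul_le_mul_left h5 hD
    · exact Nat.ModEq.mul_left_cancel' (by omega) h1
  · intro a _; rfl

lemma totient_mul_of_dvd (D W : ℕ) (hW : 1 ≤ W) (h : W ∣ D) : Nat.totient (D * W) = W * Nat.totient D := by
  have h1 := Nat.totient_gcd_mul_totient_mul D W
  rw [Nat.gcd_eq_right h] at h1
  have h2 : 0 < Nat.totient W := Nat.totient_pos.2 hW
  have h3 : Nat.totient W * Nat.totient (D * W) = Nat.totient W * (W * Nat.totient D) := by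
    rw [h1]; ring
  exact Nat.eq_of_mul_eq_mul_left h2 h3

lemma coprime_shift (m D W δ : ℕ) (h : W ∣ D) : (m + D * δ).Coprime (D * W) ↔ m.Coprime D := by
  rw [Nat.coprime_mul_iff_right]
  have h1 : (m + D * δ).Coprime D ↔ m.Coprime D := by simp
  constructor
  · intro h2; exact h1.1 h2.1
  · intro h2
    exact ⟨h1.2 h2, Nat.Coprime.coprime_dvd_right h (h1.2 h2)⟩

lemma exists_Ioc (J : Finset ℕ) (b : ℕ) (h0 : ∀ x ∈ J, 1 ≤ x ∧ x ≤ b)
    (hc : ∀ x ∈ J, ∀ z ∈ J, ∀ y, x ≤ y → y ≤ z → y ∈ J) :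
    J = ∅ ∨ ∃ u v, u ≤ v ∧ v ∈ J ∧ J = Ioc u v := by
  rcases J.eq_empty_or_nonempty with h | h
  · exact Or.inl h
  · right
    have h1 := J.min'_mem h
    have h2 := J.max'_mem h
    have h3 := h0 _ h1
    have h4 : J.min' h ≤ J.max' h := J.min'_le_max' h
    refine ⟨J.min' h - 1, J.max' h, by omega, h2, ?_⟩
    ext x
    rw [mem_Ioc]
    constructor
    · intro hx
      have a1 := J.min'_le x hx
      have a2 := J.le_max' x hx
      omega
    · rintro ⟨a1, a2⟩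
      exact hc _ h1 _ h2 x (by omega) a2

/-- the `d` for which `n` is a value at `q` -/
def JJ (s t H q n : ℕ) : Finset ℕ := (Ioc t (t + H)).filter (fun d => s + q * d < n ∧ n ≤ s + q * d + H)

lemma inner_JJ {N : ℕ} {E : ℝ} {R : ℕ} (h : AP N E R) (hE : 0 ≤ E) (s t H W δ q D n : ℕ) (hW : 1 ≤ W)
    (hD : 1 ≤ D) (hWD : W ∣ D) (hR : D * W ≤ R) (hN : s + (q + D) * (t + H) + H ≤ N) :
    |∑ d ∈ (JJ s t H q n).filter (fun d => d ≡ δ [MOD W]), vM (n + D * d) -
      (if n.Coprime D then (D : ℝ) * (JJ s t H q n).card / (W * (Nat.totient D : ℝ)) else 0)| ≤ 2 * E := by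
  rcases exists_Ioc (JJ s t H q n) (t + H) (fun x hx => by
      simp only [JJ, mem_filter, mem_Ioc] at hx; omega) (fun x hx z hz y hxy hyz => by
      simp only [JJ, mem_filter, mem_Ioc] at hx hz ⊢
      have h1 := Nat.mul_le_mul_left q hxy
      have h2 := Nat.mul_le_mul_left q hyz
      omega) with h0 | ⟨u, v, huv, hv, hJ⟩
  · rw [h0]; simp; exact hE
  · have hv' : v ≤ t + H ∧ n ≤ s + q * v + H := by
      simp only [JJ, mem_filter, mem_Ioc] at hv; omega
    rw [hJ, inner_d n D W δ u v hD]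
    have h1 : n + D * v ≤ N := by
      have h2 := Nat.mul_le_mul_left (q + D) hv'.1
      have h3 : (q + D) * v = q * v + D * v := by ring
      omega
    have h2 := AP_Ioc h (D * W) (Nat.mul_pos hD hW) hR (n + D * δ) (n + D * u) (n + D * v)
      (by have := Nat.mul_le_mul_left D huv; omega) h1
    rw [totient_mul_of_dvd D W hW hWD] at h2
    simp only [coprime_shift n D W δ hWD] at h2
    have h3 : (((n + D * v : ℕ) : ℝ) - ((n + D * u : ℕ) : ℝ)) / ((W * Nat.totient D : ℕ) : ℝ) =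
        (D : ℝ) * ((Ioc u v).card : ℝ) / (W * (Nat.totient D : ℝ)) := by
      rw [Nat.card_Ioc, Nat.cast_sub huv]; push_cast; ring
    rw [h3] at h2
    exact h2

lemma modEq_iff_shift (α δ q W d n : ℕ) (hd : d ≡ δ [MOD W]) :
    n ≡ α + q * d [MOD W] ↔ n ≡ α + q * δ [MOD W] := by
  have h : α + q * d ≡ α + q * δ [MOD W] := (hd.mul_left q).add_left α
  exact ⟨fun h1 => h1.trans h, fun h1 => h1.trans h.symm⟩

lemma S2_swap (s t H W α δ q D N : ℕ) (hN : s + q * (t + H) + H ≤ N) :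
    S2 s t H W α δ q (q + D) = ∑ n ∈ (Icc 1 N).filter (fun n => n ≡ α + q * δ [MOD W]), vM n *
      ∑ d ∈ (JJ s t H q n).filter (fun d => d ≡ δ [MOD W]), vM (n + D * d) := by
  unfold S2
  have h1 : ∀ d ∈ cls t H W δ, ∑ a ∈ cls s H W α, vM (a + q * d) * vM (a + (q + D) * d) =
      ∑ n ∈ (Ioc (s + q * d) (s + q * d + H)).filter (fun n => n ≡ α + q * δ [MOD W]), vM n * vM (n + D * d) := by
    intro d hd
    simp only [cls, mem_filter, mem_Ioc] at hd
    have h2 := inner_f (fun n => vM n * vM (n + D * d)) s H W α (q * d)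
    have h3 : ∀ a, a + (q + D) * d = a + q * d + D * d := fun a => by ring
    simp only [h3]
    rw [h2]
    refine Finset.sum_congr ?_ fun _ _ => rfl
    ext n
    simp only [mem_filter, modEq_iff_shift α δ q W d n hd.2]
  rw [Finset.sum_congr rfl h1]
  simp only [Finset.mul_sum]
  refine Finset.sum_comm' ?_
  intro d n
  simp only [cls, JJ, mem_filter, mem_Ioc, mem_Icc]
  constructor
  · rintro ⟨⟨⟨h2, h3⟩, h4⟩, ⟨⟨h5, h6⟩, h7⟩⟩
    have := Nat.mul_le_mul_left q h3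
    exact ⟨⟨⟨⟨h2, h3⟩, ⟨h5, h6⟩⟩, h4⟩, ⟨⟨by omega, by omega⟩, h7⟩⟩
  · rintro ⟨⟨⟨⟨h2, h3⟩, ⟨h5, h6⟩⟩, h4⟩, ⟨⟨_, _⟩, h7⟩⟩
    exact ⟨⟨⟨h2, h3⟩, h4⟩, ⟨⟨h5, h6⟩, h7⟩⟩

lemma card_swap (s t H W μ q N : ℕ) (hN : s + q * (t + H) + H ≤ N) :
    ∑ n ∈ (Icc 1 N).filter (fun n => n ≡ μ [MOD W]), vM n * ((JJ s t H q n).card : ℝ) =
      ∑ d ∈ Ioc t (t + H), ∑ n ∈ (Ioc (s + q * d) (s + q * d + H)).filter (fun n => n ≡ μ [MOD W]), vM n := by
  have h1 : ∀ n, vM n * ((JJ s t H q n).card : ℝ) = ∑ d ∈ JJ s t H q n, vM n := fun n => by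
    rw [Finset.sum_const, nsmul_eq_mul, mul_comm]
  simp only [h1]
  refine Finset.sum_comm' ?_
  intro n d
  simp only [JJ, mem_filter, mem_Ioc, mem_Icc]
  constructor
  · rintro ⟨⟨⟨_, _⟩, h4⟩, ⟨⟨h2, h3⟩, h5, h6⟩⟩
    exact ⟨⟨⟨h5, h6⟩, h4⟩, h2, h3⟩
  · rintro ⟨⟨⟨h5, h6⟩, h4⟩, h2, h3⟩
    have := Nat.mul_le_mul_left q h3
    exact ⟨⟨⟨by omega, by omega⟩, h4⟩, ⟨⟨h2, h3⟩, h5, h6⟩⟩

/-- prime powers not coprime to `D` are rare -/
lemma noncop {N : ℕ} {E : ℝ} {R : ℕ} (h : AP N E R) (hE : 0 ≤ E) (D : ℕ) (hD : 1 ≤ D) (hR : D ≤ R) :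
    ∑ n ∈ (Icc 1 N).filter (fun n => ¬ n.Coprime D), vM n ≤ D * E := by
  have h1 : ∀ n ∈ (Icc 1 N).filter (fun n => ¬ n.Coprime D), n % D ∈ (range D).filter (fun c => ¬ c.Coprime D) := by
    intro n hn
    simp only [mem_filter, mem_range] at hn ⊢
    refine ⟨Nat.mod_lt _ hD, fun h2 => hn.2 ?_⟩
    have h3 : n % D ≡ n [MOD D] := Nat.mod_modEq n D
    unfold Nat.Coprime at h2 ⊢
    rw [← h3.gcd_eq]; exact h2
  rw [← Finset.sum_fiberwise_of_maps_to h1]
  have h2 : ∀ c ∈ (range D).filter (fun c => ¬ c.Coprime D),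
      ∑ n ∈ ((Icc 1 N).filter (fun n => ¬ n.Coprime D)).filter (fun n => n % D = c), vM n ≤ E := by
    intro c hc
    simp only [mem_filter, mem_range] at hc
    have h3 := h D hD hR c N le_rfl
    rw [if_neg hc.2, sub_zero] at h3
    refine le_trans ?_ ((le_abs_self _).trans h3)
    unfold lamAP
    refine Finset.sum_le_sum_of_subset_of_nonneg ?_ fun _ _ _ => vM_nonneg _
    intro n hn
    simp only [mem_filter] at hn ⊢
    refine ⟨hn.1.1, ?_⟩
    unfold Nat.ModEq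
    rw [hn.2, Nat.mod_eq_of_lt hc.1]
  calc _ ≤ ∑ c ∈ (range D).filter (fun c => ¬ c.Coprime D), E := Finset.sum_le_sum h2
    _ = ((range D).filter (fun c => ¬ c.Coprime D)).card * E := by rw [Finset.sum_const, nsmul_eq_mul]
    _ ≤ D * E := by
      refine mul_le_mul_of_nonneg_right ?_ hE
      exact_mod_cast (Finset.card_filter_le _ _).trans (by simp)

lemma card_JJ_le (s t H q n : ℕ) : ((JJ s t H q n).card : ℝ) ≤ H := by
  have : (JJ s t H q n).card ≤ (Ioc t (t + H)).card := Finset.card_filter_le _ _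
  rw [Nat.card_Ioc, Nat.add_sub_cancel_left] at this
  exact_mod_cast this

/-- the correlation of two values -/
lemma S2_est {N : ℕ} {E : ℝ} {R : ℕ} (h : AP N E R) (hE : 0 ≤ E) (hEN : E ≤ N) (s t H W α δ q D : ℕ) (hW : 1 ≤ W)
    (hD : 1 ≤ D) (hWD : W ∣ D) (hR : D * W ≤ R) (hN : s + (q + D) * (t + H) + H ≤ N)
    (hcop : (α + q * δ).Coprime W) :
    |S2 s t H W α δ q (q + D) - (H : ℝ) ^ 2 * D / (W * (Nat.totient W : ℝ) * (Nat.totient D : ℝ))| ≤
      E * N * (D + 2) ^ 2 := by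
  have hN' : s + q * (t + H) + H ≤ N := by
    have : (q + D) * (t + H) = q * (t + H) + D * (t + H) := by ring
    have := Nat.zero_le (D * (t + H)); omega
  have hWR : W ≤ R := le_trans (by nlinarith) hR
  have hDR : D ≤ R := le_trans (by nlinarith) hR
  have hφ : (1 : ℝ) ≤ (Nat.totient W : ℝ) := by exact_mod_cast Nat.totient_pos.2 hW
  have hφD : (1 : ℝ) ≤ (Nat.totient D : ℝ) := by exact_mod_cast Nat.totient_pos.2 hD
  have hWr : (1 : ℝ) ≤ W := by exact_mod_cast hW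
  have hDr : (1 : ℝ) ≤ D := by exact_mod_cast hD
  rw [S2_swap s t H W α δ q D N hN']
  set M := (Icc 1 N).filter (fun n => n ≡ α + q * δ [MOD W]) with hM
  set G : ℝ := (D : ℝ) / (W * (Nat.totient D : ℝ)) with hG
  have hG0 : 0 ≤ G := by positivity
  have hGD : G ≤ D := div_le_self (by linarith) (by nlinarith)
  -- step 1
  have h1 : |∑ n ∈ M, vM n * ∑ d ∈ (JJ s t H q n).filter (fun d => d ≡ δ [MOD W]), vM (n + D * d) -
      ∑ n ∈ M, vM n * (if n.Coprime D then (D : ℝ) * (JJ s t H q n).card / (W * (Nat.totient D : ℝ)) else 0)| ≤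
      2 * E * (N + E) := by
    rw [← Finset.sum_sub_distrib]
    calc _ ≤ ∑ n ∈ M, |vM n * ∑ d ∈ (JJ s t H q n).filter (fun d => d ≡ δ [MOD W]), vM (n + D * d) -
        vM n * (if n.Coprime D then (D : ℝ) * (JJ s t H q n).card / (W * (Nat.totient D : ℝ)) else 0)| :=
          Finset.abs_sum_le_sum_abs _ _
      _ ≤ ∑ n ∈ M, vM n * (2 * E) := by
          refine Finset.sum_le_sum fun n _ => ?_
          rw [← mul_sub, abs_mul, abs_of_nonneg (vM_nonneg n)]
          exact mul_le_mul_of_nonneg_left (inner_JJ h hE s t H W δ q D n hW hD hWD hR hN) (vM_nonneg n)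
      _ = (∑ n ∈ M, vM n) * (2 * E) := by rw [Finset.sum_mul]
      _ ≤ (N + E) * (2 * E) := by
          refine mul_le_mul_of_nonneg_right ?_ (by linarith)
          have h2 := h W hW hWR (α + q * δ) N le_rfl
          rw [if_pos hcop] at h2
          have h3 : ∑ n ∈ M, vM n = lamAP N W (α + q * δ) := rfl
          rw [h3]
          have h4 : (N : ℝ) / (Nat.totient W : ℝ) ≤ N := div_le_self (Nat.cast_nonneg _) hφ
          linarith [(abs_le.1 h2).2]
      _ = 2 * E * (N + E) := by ring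
  -- step 2
  have h2 : |∑ n ∈ M, vM n * ((JJ s t H q n).card : ℝ) - H * (H / (Nat.totient W : ℝ))| ≤ 2 * E * H := by
    rw [card_swap s t H W (α + q * δ) q N hN']
    have h3 : ((Ioc t (t + H)).card : ℝ) = H := by
      rw [Nat.card_Ioc, Nat.add_sub_cancel_left]
    have h4 : (H : ℝ) * (H / (Nat.totient W : ℝ)) = ∑ d ∈ Ioc t (t + H), (H / (Nat.totient W : ℝ) : ℝ) := by
      rw [Finset.sum_const, nsmul_eq_mul, h3]
    rw [h4, ← Finset.sum_sub_distrib]
    calc _ ≤ ∑ d ∈ Ioc t (t + H), |∑ n ∈ (Ioc (s + q * d) (s + q * d + H)).filter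
          (fun n => n ≡ α + q * δ [MOD W]), vM n - (H / (Nat.totient W : ℝ) : ℝ)| := Finset.abs_sum_le_sum_abs _ _
      _ ≤ ∑ d ∈ Ioc t (t + H), 2 * E := by
          refine Finset.sum_le_sum fun d hd => ?_
          rw [mem_Ioc] at hd
          have hqd := Nat.mul_le_mul_left q hd.2
          have h5 := AP_Ioc h W hW hWR (α + q * δ) (s + q * d) (s + q * d + H) (by omega) (by omega)
          rw [if_pos hcop] at h5
          have h6 : (((s + q * d + H : ℕ) : ℝ) - ((s + q * d : ℕ) : ℝ)) = H := by push_cast; ring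
          rw [h6] at h5
          exact h5
      _ = 2 * E * H := by rw [Finset.sum_const, nsmul_eq_mul, h3]; ring
  -- step 3
  have h3 : ∑ n ∈ M, vM n * (if n.Coprime D then (D : ℝ) * (JJ s t H q n).card / (W * (Nat.totient D : ℝ)) else 0) =
      G * (∑ n ∈ M, vM n * ((JJ s t H q n).card : ℝ)) -
        G * ∑ n ∈ M.filter (fun n => ¬ n.Coprime D), vM n * ((JJ s t H q n).card : ℝ) := by
    have h30 : ∑ n ∈ M.filter (fun n => ¬ n.Coprime D), vM n * ((JJ s t H q n).card : ℝ) =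
        ∑ n ∈ M, if ¬ n.Coprime D then vM n * ((JJ s t H q n).card : ℝ) else 0 := Finset.sum_filter _ _
    rw [← mul_sub, h30, ← Finset.sum_sub_distrib, Finset.mul_sum]
    refine Finset.sum_congr rfl fun n _ => ?_
    by_cases hc : n.Coprime D
    · rw [if_pos hc, if_neg (not_not.2 hc), hG]; ring
    · rw [if_neg hc, if_pos hc]; ring
  have h4 : 0 ≤ ∑ n ∈ M.filter (fun n => ¬ n.Coprime D), vM n * ((JJ s t H q n).card : ℝ) :=
    Finset.sum_nonneg fun n _ => mul_nonneg (vM_nonneg n) (Nat.cast_nonneg _)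
  have h5 : ∑ n ∈ M.filter (fun n => ¬ n.Coprime D), vM n * ((JJ s t H q n).card : ℝ) ≤ D * E * H := by
    calc _ ≤ ∑ n ∈ M.filter (fun n => ¬ n.Coprime D), vM n * H :=
          Finset.sum_le_sum fun n _ => mul_le_mul_of_nonneg_left (card_JJ_le s t H q n) (vM_nonneg n)
      _ = (∑ n ∈ M.filter (fun n => ¬ n.Coprime D), vM n) * H := by rw [Finset.sum_mul]
      _ ≤ (∑ n ∈ (Icc 1 N).filter (fun n => ¬ n.Coprime D), vM n) * H := by
          refine mul_le_mul_of_nonneg_right ?_ (Nat.cast_nonneg _)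
          refine Finset.sum_le_sum_of_subset_of_nonneg ?_ fun _ _ _ => vM_nonneg _
          intro n hn
          simp only [hM, mem_filter] at hn ⊢
          exact ⟨hn.1.1, hn.2⟩
      _ ≤ D * E * H := mul_le_mul_of_nonneg_right (noncop h hE D hD hDR) (Nat.cast_nonneg _)
  have h6 : (H : ℝ) ^ 2 * D / (W * (Nat.totient W : ℝ) * (Nat.totient D : ℝ)) =
      G * (H * (H / (Nat.totient W : ℝ))) := by
    rw [hG]; field_simp
  rw [h6]
  rw [h3] at h1
  have hHN : (H : ℝ) ≤ N := by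
    have : H ≤ N := by omega
    exact_mod_cast this
  have h7 := (abs_le.1 h1)
  have h8 := (abs_le.1 h2)
  set T1 := ∑ n ∈ M, vM n * ∑ d ∈ (JJ s t H q n).filter (fun d => d ≡ δ [MOD W]), vM (n + D * d)
  set T2 := ∑ n ∈ M, vM n * ((JJ s t H q n).card : ℝ)
  set T3 := ∑ n ∈ M.filter (fun n => ¬ n.Coprime D), vM n * ((JJ s t H q n).card : ℝ)
  set T4 := (H : ℝ) * (H / (Nat.totient W : ℝ))
  have hH0 : (0 : ℝ) ≤ H := Nat.cast_nonneg _
  have h9 : G * (T2 - T4) ≤ D * (2 * E * H) ∧ -(D * (2 * E * H)) ≤ G * (T2 - T4) := by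
    have hEH : 0 ≤ 2 * E * H := by positivity
    constructor
    · calc G * (T2 - T4) ≤ G * (2 * E * H) := mul_le_mul_of_nonneg_left (by linarith [h8.2]) hG0
        _ ≤ D * (2 * E * H) := mul_le_mul_of_nonneg_right hGD hEH
    · have h10 : G * (-(2 * E * H)) ≤ G * (T2 - T4) := mul_le_mul_of_nonneg_left (by linarith [h8.1]) hG0
      have h11 : G * (2 * E * H) ≤ D * (2 * E * H) := mul_le_mul_of_nonneg_right hGD hEH
      linarith
  have h10 : 0 ≤ G * T3 ∧ G * T3 ≤ D * (D * E * H) := by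
    refine ⟨mul_nonneg hG0 h4, ?_⟩
    calc G * T3 ≤ D * T3 := mul_le_mul_of_nonneg_right hGD h4
      _ ≤ D * (D * E * H) := mul_le_mul_of_nonneg_left h5 (by linarith)
  have hEH' : E * H ≤ E * N := mul_le_mul_of_nonneg_left hHN hE
  have hEE : E * E ≤ E * N := mul_le_mul_of_nonneg_left hEN hE
  have h11 : 2 * E * (N + E) + D * (2 * E * H) + D * (D * E * H) ≤ E * N * (D + 2) ^ 2 := by
    have a1 : (D : ℝ) * (2 * E * H) ≤ 2 * D * (E * N) := by
      have := mul_le_mul_of_nonneg_left hEH' (show (0:ℝ) ≤ 2 * D by linarith)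
      linarith
    have a2 : (D : ℝ) * (D * E * H) ≤ D * D * (E * N) := by
      have := mul_le_mul_of_nonneg_left hEH' (show (0:ℝ) ≤ D * D by nlinarith)
      linarith
    have a3 : 0 ≤ E * N := mul_nonneg hE (Nat.cast_nonneg _)
    nlinarith
  rw [abs_le]
  constructor <;> nlinarith [h7.1, h7.2, h9.1, h9.2, h10.1, h10.2]

end Pool.Agent.H570.LQ
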