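import Mathlib
import Pool.Agent.H570.LQ.Single
import Pool.Graph.R_seed8.Helper602.MK.J3

/-! The singular series of a pair of integers `q, q'` on average over the primes `q, q' ≤ K` in a residue class. -/

set_option autoImplicit false

namespace Pool.Agent.H570.LQ

open Finset

/-- the weight of the divisor `e` -/
noncomputable def gw (b e : ℕ) : ℝ := (b : ℝ) ^ e.primeFactors.card / e

lemma gw_nonneg (b e : ℕ) : 0 ≤ gw b e := by unfold gw; positivity

lemma totient_ratio (n : ℕ) (hn : 1 ≤ n) :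
    (n : ℝ) / (Nat.totient n : ℝ) = ∏ p ∈ n.primeFactors, (1 - (p : ℝ)⁻¹)⁻¹ := by
  have h1 := Nat.totient_eq_mul_prod_factors n
  have h2 : ((Nat.totient n : ℕ) : ℝ) = n * ∏ p ∈ n.primeFactors, (1 - (p : ℝ)⁻¹) := by
    have := congrArg (Rat.cast (K := ℝ)) h1
    push_cast at this
    exact this
  have hn' : (n : ℝ) ≠ 0 := by positivity
  have h3 : ∏ p ∈ n.primeFactors, (1 - (p : ℝ)⁻¹) ≠ 0 := by
    intro h
    rw [h, mul_zero] at h2
    have := Nat.totient_pos.2 hn
    have h4 : ((Nat.totient n : ℕ) : ℝ) ≠ 0 := by positivity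
    exact h4 h2
  rw [h2, Finset.prod_inv_distrib]
  field_simp

lemma one_add_pow_le (x : ℝ) (h0 : 0 ≤ x) (h1 : x ≤ 1) (k : ℕ) : (1 + x) ^ k ≤ 1 + (2 ^ k - 1) * x := by
  induction k with
  | zero => simp
  | succ k ih =>
    have h2 : (1 : ℝ) ≤ 2 ^ k := one_le_pow₀ (by norm_num)
    calc (1 + x) ^ (k + 1) = (1 + x) ^ k * (1 + x) := pow_succ _ _
      _ ≤ (1 + (2 ^ k - 1) * x) * (1 + x) := mul_le_mul_of_nonneg_right ih (by linarith)
      _ = 1 + x + (2 ^ k - 1) * x + (2 ^ k - 1) * (x * x) := by ring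
      _ ≤ 1 + x + (2 ^ k - 1) * x + (2 ^ k - 1) * x := by
          have : x * x ≤ x := by nlinarith
          have := mul_le_mul_of_nonneg_left this (show (0 : ℝ) ≤ 2 ^ k - 1 by linarith)
          linarith
      _ = 1 + (2 ^ (k + 1) - 1) * x := by rw [pow_succ]; ring

lemma local_le (p k : ℕ) (hp : 2 ≤ p) : ((1 - (p : ℝ)⁻¹)⁻¹) ^ k ≤ 1 + ((2 ^ (k + 1) : ℕ) : ℝ) / p := by
  have hp' : (2 : ℝ) ≤ p := by exact_mod_cast hp
  have h1 : (1 - (p : ℝ)⁻¹)⁻¹ ≤ 1 + 2 / p := by
    rw [inv_le_iff_one_le_mul₀ (by rw [sub_pos]; exact inv_lt_one_of_one_lt₀ (by linarith))]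
    have h2 : (1 + 2 / (p : ℝ)) * (1 - (p : ℝ)⁻¹) = 1 + (p - 2) / (p : ℝ) ^ 2 := by
      field_simp; ring
    rw [h2]
    have : 0 ≤ ((p : ℝ) - 2) / (p : ℝ) ^ 2 := div_nonneg (by linarith) (by positivity)
    linarith
  have h0 : 0 ≤ (1 - (p : ℝ)⁻¹)⁻¹ := by
    rw [inv_nonneg, sub_nonneg]; exact inv_le_one_of_one_le₀ (by linarith)
  have h3 : (2 : ℝ) / p ≤ 1 := by rw [div_le_one (by linarith)]; exact hp'
  calc _ ≤ (1 + 2 / (p : ℝ)) ^ k := pow_le_pow_left₀ h0 h1 k
    _ ≤ 1 + (2 ^ k - 1) * (2 / p) := one_add_pow_le _ (by positivity) h3 k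
    _ ≤ 1 + ((2 ^ (k + 1) : ℕ) : ℝ) / p := by
        have : (2 : ℝ) ^ k * (2 / p) = ((2 ^ (k + 1) : ℕ) : ℝ) / p := by push_cast; rw [pow_succ]; ring
        have h5 : 0 ≤ (2 : ℝ) / p := by positivity
        nlinarith

/-- the ratio of singular series -/
noncomputable def rat (W D : ℕ) : ℝ := ((D : ℝ) / (Nat.totient D : ℝ)) / ((W : ℝ) / (Nat.totient W : ℝ))

lemma rat_nonneg (W D : ℕ) : 0 ≤ rat W D := by unfold rat; positivity

lemma rat_eq (W D : ℕ) (hW : 1 ≤ W) (hD : 1 ≤ D) (h : W ∣ D) :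
    rat W D = ∏ p ∈ D.primeFactors \ W.primeFactors, (1 - (p : ℝ)⁻¹)⁻¹ := by
  unfold rat
  rw [totient_ratio W hW, totient_ratio D hD]
  have h1 : W.primeFactors ⊆ D.primeFactors := Nat.primeFactors_mono h (by omega)
  rw [← Finset.prod_sdiff h1]
  have h2 : ∏ p ∈ W.primeFactors, (1 - (p : ℝ)⁻¹)⁻¹ ≠ 0 := by
    rw [Finset.prod_ne_zero_iff]
    intro p hp
    have hp2 : (2 : ℝ) ≤ p := by exact_mod_cast (Nat.prime_of_mem_primeFactors hp).two_le
    have : (0 : ℝ) < 1 - (p : ℝ)⁻¹ := by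
      rw [sub_pos]; exact inv_lt_one_of_one_lt₀ (by linarith)
    positivity
  exact mul_div_cancel_right₀ _ h2

lemma rat_pow_le (W D k K : ℕ) (hW : 1 ≤ W) (hD : 1 ≤ D) (hDK : D ≤ K) (h : W ∣ D) :
    rat W D ^ k ≤ ∑ e ∈ (Icc 1 K).filter (fun e => e ∣ D ∧ e.Coprime W), gw (2 ^ (k + 1)) e := by
  rw [rat_eq W D hW hD h, ← Finset.prod_pow]
  set S := D.primeFactors \ W.primeFactors with hS
  set b := 2 ^ (k + 1) with hb
  have hSp : ∀ p ∈ S, p.Prime := fun p hp => Nat.prime_of_mem_primeFactors (Finset.mem_sdiff.1 hp).1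
  calc ∏ p ∈ S, ((1 - (p : ℝ)⁻¹)⁻¹) ^ k ≤ ∏ p ∈ S, (1 + (b : ℝ) / p) := by
        refine Finset.prod_le_prod (fun p hp => ?_) fun p hp => local_le p k (hSp p hp).two_le
        have hp2 : (2 : ℝ) ≤ p := by exact_mod_cast (hSp p hp).two_le
        have : 0 ≤ (1 - (p : ℝ)⁻¹)⁻¹ := by
          rw [inv_nonneg, sub_nonneg]; exact inv_le_one_of_one_le₀ (by linarith)
        positivity
    _ = ∑ T ∈ S.powerset, ∏ p ∈ T, (b : ℝ) / p := Finset.prod_one_add S
    _ = ∑ T ∈ S.powerset, gw b (∏ p ∈ T, p) := by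
        refine Finset.sum_congr rfl fun T hT => ?_
        have hT' : ∀ p ∈ T, p.Prime := fun p hp => hSp p (Finset.mem_powerset.1 hT hp)
        unfold gw
        rw [Nat.primeFactors_prod hT', Finset.prod_div_distrib, Finset.prod_const]
        push_cast
        rfl
    _ = ∑ e ∈ S.powerset.image (fun T => ∏ p ∈ T, p), gw b e := by
        rw [Finset.sum_image]
        intro T hT T' hT' heq
        have h1 : ∀ p ∈ T, p.Prime := fun p hp => hSp p (Finset.mem_powerset.1 hT hp)
        have h2 : ∀ p ∈ T', p.Prime := fun p hp => hSp p (Finset.mem_powerset.1 hT' hp)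
        have h3 := Nat.primeFactors_prod h1
        have h4 := Nat.primeFactors_prod h2
        rw [← h3, ← h4]
        exact congrArg Nat.primeFactors heq
    _ ≤ _ := by
        refine Finset.sum_le_sum_of_subset_of_nonneg ?_ fun _ _ _ => gw_nonneg _ _
        intro e he
        obtain ⟨T, hT, rfl⟩ := Finset.mem_image.1 he
        have hTS := Finset.mem_powerset.1 hT
        have hT' : ∀ p ∈ T, p.Prime := fun p hp => hSp p (hTS hp)
        have h1 : (∏ p ∈ T, p) ∣ D := by
          refine (Finset.prod_dvd_prod_of_subset _ _ _ (hTS.trans Finset.sdiff_subset)).trans ?_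
          exact Nat.prod_primeFactors_dvd D
        have h2 : 0 < ∏ p ∈ T, p := Finset.prod_pos fun p hp => (hT' p hp).pos
        simp only [mem_filter, mem_Icc]
        refine ⟨⟨h2, (Nat.le_of_dvd hD h1).trans hDK⟩, h1, ?_⟩
        refine Nat.Coprime.prod_left fun p hp => ?_
        have h3 := Finset.mem_sdiff.1 (hTS hp)
        rw [Nat.Prime.coprime_iff_not_dvd (hT' p hp)]
        intro h4
        exact h3.2 (Nat.mem_primeFactors.2 ⟨hT' p hp, h4, by omega⟩)

lemma omega_bound (b e : ℕ) (hb : 1 ≤ b) (he : 1 ≤ e) :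
    ((b : ℝ) ^ e.primeFactors.card) ≤ (b : ℝ) ^ (b ^ 2) * Real.sqrt e := by
  have hb' : (1 : ℝ) ≤ b := by exact_mod_cast hb
  set A := e.primeFactors.filter (fun p => p ≤ b ^ 2) with hA
  set B := e.primeFactors.filter (fun p => ¬ p ≤ b ^ 2) with hB
  have h1 : e.primeFactors.card = A.card + B.card := (Finset.card_filter_add_card_filter_not _).symm
  have h2 : A.card ≤ b ^ 2 := by
    have : A ⊆ Icc 1 (b ^ 2) := by
      intro p hp
      simp only [hA, mem_filter] at hp
      rw [mem_Icc]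
      exact ⟨(Nat.prime_of_mem_primeFactors hp.1).pos, hp.2⟩
    simpa using Finset.card_le_card this
  have h3 : (b ^ 2) ^ B.card ≤ e := by
    calc (b ^ 2) ^ B.card = ∏ p ∈ B, b ^ 2 := by rw [Finset.prod_const]
      _ ≤ ∏ p ∈ B, p := Finset.prod_le_prod' fun p hp => by
          simp only [hB, mem_filter] at hp; omega
      _ ≤ e := Nat.le_of_dvd he ((Finset.prod_dvd_prod_of_subset _ _ _ (Finset.filter_subset _ _)).trans
          (Nat.prod_primeFactors_dvd e))
  have h4 : (b : ℝ) ^ B.card ≤ Real.sqrt e := by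
    apply Real.le_sqrt_of_sq_le
    have : ((b ^ 2) ^ B.card : ℕ) = (b ^ B.card) ^ 2 := by rw [← pow_mul, ← pow_mul, mul_comm]
    rw [this] at h3
    exact_mod_cast h3
  rw [h1, pow_add]
  exact mul_le_mul (pow_le_pow_right₀ hb' h2) h4 (by positivity) (by positivity)

lemma totient_lower (e : ℕ) (he : 1 ≤ e) : (e : ℝ) / (Nat.totient e : ℝ) ≤ 2 ^ e.primeFactors.card := by
  rw [totient_ratio e he, ← Finset.prod_const]
  refine Finset.prod_le_prod (fun p hp => ?_) fun p hp => ?_
  · have hp2 : (2 : ℝ) ≤ p := by exact_mod_cast (Nat.prime_of_mem_primeFactors hp).two_le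
    rw [inv_nonneg, sub_nonneg]; exact inv_le_one_of_one_le₀ (by linarith)
  · have hp2 : (2 : ℝ) ≤ p := by exact_mod_cast (Nat.prime_of_mem_primeFactors hp).two_le
    have h1 : (p : ℝ)⁻¹ ≤ 1 / 2 := by rw [inv_le_comm₀ (by linarith) (by norm_num)]; linarith
    rw [inv_le_comm₀ (by linarith) (by norm_num)]
    linarith

lemma tele (n M : ℕ) (hn : 1 ≤ n) :
    ∑ e ∈ Ioc n M, 1 / ((e : ℝ) * Real.sqrt e) ≤ 2 / Real.sqrt n := by
  rcases le_total M n with hMn | hMn
  · rw [Finset.Ioc_eq_empty (by omega)]; simp; positivity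
  have key : ∀ M, n ≤ M → ∑ e ∈ Ioc n M, 1 / ((e : ℝ) * Real.sqrt e) ≤ 2 / Real.sqrt n - 2 / Real.sqrt M := by
    intro M hM
    induction M, hM using Nat.le_induction with
    | base => simp
    | succ M hM ih =>
      have hins : Ioc n (M + 1) = insert (M + 1) (Ioc n M) := by
        ext x; simp only [mem_insert, mem_Ioc]; omega
      rw [hins, Finset.sum_insert (by simp)]
      have hM0 : (1 : ℝ) ≤ M := by exact_mod_cast le_trans hn hM
      have hs0 : 0 < Real.sqrt M := Real.sqrt_pos.2 (by linarith)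
      have hs1 : 0 < Real.sqrt ((M + 1 : ℕ) : ℝ) := Real.sqrt_pos.2 (by positivity)
      have hs2 : Real.sqrt M ≤ Real.sqrt ((M + 1 : ℕ) : ℝ) := Real.sqrt_le_sqrt (by push_cast; linarith)
      have e1 : Real.sqrt M ^ 2 = M := Real.sq_sqrt (by linarith)
      have e2 : Real.sqrt ((M + 1 : ℕ) : ℝ) ^ 2 = ((M + 1 : ℕ) : ℝ) := Real.sq_sqrt (by positivity)
      set a := Real.sqrt M
      set c := Real.sqrt ((M + 1 : ℕ) : ℝ)
      have e3 : c ^ 2 - a ^ 2 = 1 := by rw [e1, e2]; push_cast; ring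
      have h2 : 1 / (((M + 1 : ℕ) : ℝ) * c) ≤ 2 / a - 2 / c := by
        rw [← e2, div_sub_div _ _ hs0.ne' hs1.ne', div_le_div_iff₀ (by positivity) (by positivity)]
        have h3 : (c - a) * (c + a) = 1 := by nlinarith
        have h4 : 1 ≤ (c - a) * (2 * c) := by nlinarith
        have h5 : 0 ≤ c ^ 2 := by positivity
        have h6 : a * c ≤ c ^ 2 := by nlinarith
        nlinarith [mul_le_mul_of_nonneg_left h4 h5]
      linarith
  have h1 := key M hMn
  have : 0 ≤ 2 / Real.sqrt M := by positivity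
  linarith

lemma gw_phi (b e : ℕ) (hb : 1 ≤ b) (he : 1 ≤ e) :
    gw b e / (Nat.totient e : ℝ) ≤ ((2 * b : ℕ) : ℝ) ^ ((2 * b) ^ 2) * (1 / ((e : ℝ) * Real.sqrt e)) := by
  have h1 := totient_lower e he
  have h2 := omega_bound (2 * b) e (by omega) he
  have he' : (1 : ℝ) ≤ e := by exact_mod_cast he
  have hs : 0 < Real.sqrt e := Real.sqrt_pos.2 (by linarith)
  have hss : Real.sqrt e * Real.sqrt e = e := Real.mul_self_sqrt (by linarith)
  have hφ : (0 : ℝ) < (Nat.totient e : ℝ) := by exact_mod_cast Nat.totient_pos.2 he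
  have h3 : gw b e / (Nat.totient e : ℝ) = (b : ℝ) ^ e.primeFactors.card * ((e : ℝ) / (Nat.totient e : ℝ)) / ((e : ℝ) ^ 2) := by
    unfold gw; field_simp
  rw [h3]
  have h4 : (b : ℝ) ^ e.primeFactors.card * ((e : ℝ) / (Nat.totient e : ℝ)) ≤ ((2 * b : ℕ) : ℝ) ^ e.primeFactors.card := by
    calc _ ≤ (b : ℝ) ^ e.primeFactors.card * 2 ^ e.primeFactors.card := mul_le_mul_of_nonneg_left h1 (by positivity)
      _ = _ := by push_cast; rw [mul_pow, mul_comm]
  calc _ ≤ (((2 * b : ℕ) : ℝ) ^ ((2 * b) ^ 2) * Real.sqrt e) / (e : ℝ) ^ 2 := by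
        refine div_le_div_of_nonneg_right (h4.trans h2) (by positivity)
    _ = _ := by
        have h5 : Real.sqrt e / (e : ℝ) ^ 2 = 1 / ((e : ℝ) * Real.sqrt e) := by
          rw [div_eq_div_iff (by positivity) (by positivity)]
          nlinarith
        rw [mul_div_assoc, h5]

lemma gw_e (b e : ℕ) (hb : 1 ≤ b) (he : 1 ≤ e) :
    gw b e / e ≤ (b : ℝ) ^ (b ^ 2) * (1 / ((e : ℝ) * Real.sqrt e)) := by
  have h2 := omega_bound b e hb he
  have he' : (1 : ℝ) ≤ e := by exact_mod_cast he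
  have hs : 0 < Real.sqrt e := Real.sqrt_pos.2 (by linarith)
  have hss : Real.sqrt e * Real.sqrt e = e := Real.mul_self_sqrt (by linarith)
  have h5 : Real.sqrt e / (e : ℝ) ^ 2 = 1 / ((e : ℝ) * Real.sqrt e) := by
    rw [div_eq_div_iff (by positivity) (by positivity)]
    nlinarith
  calc gw b e / e = (b : ℝ) ^ e.primeFactors.card / (e : ℝ) ^ 2 := by unfold gw; field_simp
    _ ≤ ((b : ℝ) ^ (b ^ 2) * Real.sqrt e) / (e : ℝ) ^ 2 := div_le_div_of_nonneg_right h2 (by positivity)
    _ = _ := by rw [mul_div_assoc, h5]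

/-- the primes up to `K` in a residue class -/
def QQ (K W r : ℕ) : Finset ℕ := (Icc 1 K).filter (fun q => q.Prime ∧ q ≡ r [MOD W])

lemma count1 (K m q : ℕ) (hm : 1 ≤ m) (hq : q ∈ Icc 1 K) :
    ((((Icc 1 K).filter (fun q' => q' ≡ q [MOD m])).erase q).card : ℝ) ≤ K / m := by
  have h1 := card_cls_le 0 K m q hm
  have h2 : (Icc 1 K).filter (fun q' => q' ≡ q [MOD m]) = cls 0 K m q := by
    unfold cls
    ext x
    simp only [mem_filter, mem_Icc, mem_Ioc]
    constructor <;> rintro ⟨⟨a1, a2⟩, a3⟩ <;> exact ⟨⟨by omega, by omega⟩, a3⟩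
  rw [h2]
  have h3 : q ∈ cls 0 K m q := by
    rw [← h2]; simp only [mem_filter]; exact ⟨hq, Nat.ModEq.refl q⟩
  rw [Finset.card_erase_of_mem h3, Nat.cast_sub (Finset.card_pos.2 ⟨q, h3⟩)]
  push_cast
  linarith

lemma count2 : ∃ C : ℝ, 1 ≤ C ∧ ∀ K m q : ℕ, 1 ≤ m → m ^ 2 ≤ K → 2 ≤ K →
    (((Icc 1 K).filter (fun q' => q'.Prime ∧ q' ≡ q [MOD m])).card : ℝ) ≤
      C * K / ((Nat.totient m : ℝ) * Real.log K) := by
  obtain ⟨C, hC, h⟩ := Pool.Agent.Helper602.MK.BTLib.brun_titchmarsh
  refine ⟨4 * C, by linarith, fun K m q hm hmK hK => ?_⟩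
  have hmK' : m ≤ K := le_trans (by nlinarith) hmK
  have hN : 2 ≤ K / m + 1 := by
    have : 1 ≤ K / m := (Nat.one_le_div_iff hm).2 hmK'
    omega
  have h1 := h (q % m) m (K / m + 1) hm hN
  have h2 : ((Icc 1 K).filter (fun q' => q'.Prime ∧ q' ≡ q [MOD m])).card ≤
      ((range (K / m + 1)).filter (fun t => (q % m + t * m).Prime)).card := by
    refine Finset.card_le_card_of_injOn (fun q' => q' / m) ?_ ?_
    · intro q' hq'
      simp only [coe_filter, Set.mem_ofPred_eq, mem_Icc, mem_range] at hq' ⊢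
      obtain ⟨⟨a1, a2⟩, a3, a4⟩ := hq'
      have h3 : q % m + q' / m * m = q' := by
        have : q % m = q' % m := a4.symm
        rw [this, mul_comm]; exact Nat.mod_add_div q' m
      refine ⟨?_, by rw [h3]; exact a3⟩
      have := Nat.div_le_div_right (c := m) a2
      omega
    · intro x hx y hy hxy
      simp only [coe_filter, Set.mem_ofPred_eq, mem_Icc] at hx hy
      have h3 : x % m = y % m := hx.2.2.trans hy.2.2.symm
      have h4 : x / m = y / m := hxy
      have h5 := Nat.mod_add_div x m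
      have h6 := Nat.mod_add_div y m
      rw [← h5, ← h6, h3, h4]
  have hmr : (1 : ℝ) ≤ m := by exact_mod_cast hm
  have hKr : (2 : ℝ) ≤ K := by exact_mod_cast hK
  have hφ : (0 : ℝ) < (Nat.totient m : ℝ) := by exact_mod_cast Nat.totient_pos.2 hm
  set N : ℕ := K / m + 1 with hNd
  have hN1 : (N : ℝ) ≤ 2 * K / m := by
    have : ((K / m : ℕ) : ℝ) ≤ (K : ℝ) / m := Nat.cast_div_le
    have h3 : (1 : ℝ) ≤ K / m := by
      rw [le_div_iff₀ (by linarith), one_mul]; exact_mod_cast hmK'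
    rw [hNd]; push_cast
    have h4 : 2 * (K : ℝ) / m = K / m + K / m := by ring
    linarith
  have hN2 : (K : ℝ) / m ≤ N := by
    rw [hNd, div_le_iff₀ (by linarith)]
    have : K < (K / m + 1) * m := by
      have := Nat.lt_mul_div_succ K hm
      rw [mul_comm]; exact this
    exact_mod_cast this.le
  have hsqrt : Real.sqrt K ≤ N := by
    refine le_trans ?_ hN2
    rw [le_div_iff₀ (by linarith)]
    have h3 : (m : ℝ) ≤ Real.sqrt K := by
      apply Real.le_sqrt_of_sq_le; exact_mod_cast hmK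
    calc Real.sqrt K * m ≤ Real.sqrt K * Real.sqrt K := mul_le_mul_of_nonneg_left h3 (Real.sqrt_nonneg _)
      _ = K := Real.mul_self_sqrt (by linarith)
  have hlogK : 0 < Real.log K := Real.log_pos (by linarith)
  have hlogN : Real.log K / 2 ≤ Real.log N := by
    rw [← Real.log_sqrt (by linarith)]
    exact Real.log_le_log (Real.sqrt_pos.2 (by linarith)) hsqrt
  have hN0 : (0 : ℝ) ≤ N := Nat.cast_nonneg _
  calc (((Icc 1 K).filter (fun q' => q'.Prime ∧ q' ≡ q [MOD m])).card : ℝ) ≤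
        (((range N).filter (fun t => (q % m + t * m).Prime)).card : ℝ) := by exact_mod_cast h2
    _ ≤ C * ((m : ℝ) / (Nat.totient m : ℝ)) * N / Real.log N := h1
    _ ≤ C * ((m : ℝ) / (Nat.totient m : ℝ)) * (2 * K / m) / (Real.log K / 2) := by
        have h5 : 0 ≤ C * ((m : ℝ) / (Nat.totient m : ℝ)) := by positivity
        exact div_le_div₀ (by positivity) (mul_le_mul_of_nonneg_left hN1 h5) (by linarith) hlogN
    _ = 4 * C * K / ((Nat.totient m : ℝ) * Real.log K) := by field_simp; ring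

/-- the distance of two natural numbers -/
def dd (q q' : ℕ) : ℕ := (q' - q) + (q - q')

lemma dvd_dd_iff (m q q' : ℕ) : m ∣ dd q q' ↔ q' ≡ q [MOD m] := by
  unfold dd
  rcases le_total q q' with h | h
  · rw [Nat.sub_eq_zero_of_le h, add_zero]
    constructor
    · intro h1; exact ((Nat.modEq_iff_dvd' h).2 h1).symm
    · intro h1; exact (Nat.modEq_iff_dvd' h).1 h1.symm
  · rw [Nat.sub_eq_zero_of_le h, zero_add]
    exact (Nat.modEq_iff_dvd' h).symm

lemma dd_pos (q q' : ℕ) (h : q' ≠ q) : 1 ≤ dd q q' := by unfold dd; omega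

lemma dd_le (q q' K : ℕ) (h : q ≤ K) (h' : q' ≤ K) : dd q q' ≤ K := by unfold dd; omega

lemma ratio_avg (k : ℕ) : ∃ C1 : ℝ, 1 ≤ C1 ∧ ∀ K W r z : ℕ, 1 ≤ z → 1 ≤ W → (∀ p : ℕ, p.Prime → p ≤ z → p ∣ W) →
    1 ≤ Nat.sqrt K / W → 2 ≤ K → ∀ q ∈ QQ K W r,
    ∑ q' ∈ (QQ K W r).erase q, rat W (dd q q') ^ k ≤ (QQ K W r).card +
      C1 * (K / ((Nat.totient W : ℝ) * Real.log K)) / Real.sqrt z + C1 * K / Real.sqrt (Nat.sqrt K / W : ℕ) := by
  obtain ⟨C, hC, hcount⟩ := count2
  set b : ℕ := 2 ^ (k + 1) with hb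
  have hb1 : 1 ≤ b := Nat.one_le_two_pow
  set Cb : ℝ := ((2 * b : ℕ) : ℝ) ^ ((2 * b) ^ 2) with hCb
  set Cb' : ℝ := (b : ℝ) ^ (b ^ 2) with hCb'
  have hCb1 : 1 ≤ Cb := one_le_pow₀ (by exact_mod_cast (by omega : 1 ≤ 2 * b))
  have hCb1' : 1 ≤ Cb' := one_le_pow₀ (by exact_mod_cast hb1)
  refine ⟨2 * C * Cb + 2 * Cb', by nlinarith, fun K W r z hz hW hzW hn hK q hq => ?_⟩
  set n := Nat.sqrt K / W with hnd
  have hq1 : q ∈ Icc 1 K := (Finset.mem_filter.1 hq).1
  have hKr : (2 : ℝ) ≤ K := by exact_mod_cast hK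
  have hlogK : 0 < Real.log K := Real.log_pos (by linarith)
  have hφ : (1 : ℝ) ≤ (Nat.totient W : ℝ) := by exact_mod_cast Nat.totient_pos.2 hW
  have hWr : (1 : ℝ) ≤ W := by exact_mod_cast hW
  have hWD : ∀ q' ∈ (QQ K W r).erase q, W ∣ dd q q' := by
    intro q' hq'
    rw [dvd_dd_iff]
    have h1 := (Finset.mem_filter.1 (Finset.mem_of_mem_erase hq')).2.2
    exact h1.trans (Finset.mem_filter.1 hq).2.2.symm
  -- expansion
  have h1 : ∑ q' ∈ (QQ K W r).erase q, rat W (dd q q') ^ k ≤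
      ∑ q' ∈ (QQ K W r).erase q, ∑ e ∈ (Icc 1 K).filter (fun e => e ∣ dd q q' ∧ e.Coprime W), gw b e := by
    refine Finset.sum_le_sum fun q' hq' => ?_
    have h2 := Finset.mem_erase.1 hq'
    have h3 := (Finset.mem_filter.1 h2.2).1
    rw [mem_Icc] at h3 hq1
    exact rat_pow_le W (dd q q') k K hW (dd_pos q q' h2.1) (dd_le q q' K hq1.2 h3.2) (hWD q' hq')
  have h2 : ∑ q' ∈ (QQ K W r).erase q, ∑ e ∈ (Icc 1 K).filter (fun e => e ∣ dd q q' ∧ e.Coprime W), gw b e =
      ∑ e ∈ (Icc 1 K).filter (fun e => e.Coprime W),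
        gw b e * (((QQ K W r).erase q).filter (fun q' => e ∣ dd q q')).card := by
    have h3 : ∀ e, gw b e * (((QQ K W r).erase q).filter (fun q' => e ∣ dd q q')).card =
        ∑ q' ∈ ((QQ K W r).erase q).filter (fun q' => e ∣ dd q q'), gw b e := fun e => by
      rw [Finset.sum_const, nsmul_eq_mul, mul_comm]
    simp only [h3]
    refine Finset.sum_comm' ?_
    intro q' e
    simp only [mem_filter]
    tauto
  -- bound of the counts
  have c1 : ∀ e ∈ Icc 1 K, e.Coprime W →
      ((((QQ K W r).erase q).filter (fun q' => e ∣ dd q q')).card : ℝ) ≤ K / e := by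
    intro e he hcop
    have he1 : 1 ≤ e := (mem_Icc.1 he).1
    have he' : (1 : ℝ) ≤ e := by exact_mod_cast he1
    have h4 := count1 K (e * W) q (Nat.mul_pos he1 hW) hq1
    have h5 : (((QQ K W r).erase q).filter (fun q' => e ∣ dd q q')) ⊆
        ((Icc 1 K).filter (fun q' => q' ≡ q [MOD (e * W)])).erase q := by
      intro q' hq'
      have h6 := Finset.mem_filter.1 hq'
      have h7 := Finset.mem_erase.1 h6.1
      refine Finset.mem_erase.2 ⟨h7.1, ?_⟩
      refine Finset.mem_filter.2 ⟨(Finset.mem_filter.1 h7.2).1, ?_⟩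
      rw [← dvd_dd_iff]
      exact Nat.Coprime.mul_dvd_of_dvd_of_dvd hcop h6.2 (hWD q' h6.1)
    calc _ ≤ ((((Icc 1 K).filter (fun q' => q' ≡ q [MOD (e * W)])).erase q).card : ℝ) := by
          exact_mod_cast Finset.card_le_card h5
      _ ≤ K / ((e * W : ℕ) : ℝ) := h4
      _ ≤ K / e := by
          push_cast
          exact div_le_div_of_nonneg_left (by linarith) (by linarith) (by nlinarith)
  have c2 : ∀ e ∈ Icc 1 K, e.Coprime W → e ≤ n →
      ((((QQ K W r).erase q).filter (fun q' => e ∣ dd q q')).card : ℝ) ≤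
        C * (K / ((Nat.totient W : ℝ) * Real.log K)) / (Nat.totient e : ℝ) := by
    intro e he hcop hen
    have he1 : 1 ≤ e := (mem_Icc.1 he).1
    have hφe : (1 : ℝ) ≤ (Nat.totient e : ℝ) := by exact_mod_cast Nat.totient_pos.2 he1
    have h3 : (e * W) ^ 2 ≤ K := by
      have h4 : e * W ≤ Nat.sqrt K := by
        calc e * W ≤ n * W := Nat.mul_le_mul_right W hen
          _ ≤ Nat.sqrt K := Nat.div_mul_le_self _ _
      calc (e * W) ^ 2 ≤ (Nat.sqrt K) ^ 2 := Nat.pow_le_pow_left h4 2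
        _ ≤ K := Nat.sqrt_le' K
    have h4 := hcount K (e * W) q (Nat.mul_pos he1 hW) h3 hK
    have h5 : (((QQ K W r).erase q).filter (fun q' => e ∣ dd q q')) ⊆
        ((Icc 1 K).filter (fun q' => q'.Prime ∧ q' ≡ q [MOD (e * W)])) := by
      intro q' hq'
      have h6 := Finset.mem_filter.1 hq'
      have h7 := Finset.mem_erase.1 h6.1
      have h8 := Finset.mem_filter.1 h7.2
      refine Finset.mem_filter.2 ⟨h8.1, h8.2.1, ?_⟩
      rw [← dvd_dd_iff]
      exact Nat.Coprime.mul_dvd_of_dvd_of_dvd hcop h6.2 (hWD q' h6.1)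
    calc _ ≤ (((Icc 1 K).filter (fun q' => q'.Prime ∧ q' ≡ q [MOD (e * W)])).card : ℝ) := by
          exact_mod_cast Finset.card_le_card h5
      _ ≤ C * K / ((Nat.totient (e * W) : ℝ) * Real.log K) := h4
      _ = C * (K / ((Nat.totient W : ℝ) * Real.log K)) / (Nat.totient e : ℝ) := by
          rw [Nat.totient_mul hcop]; push_cast; field_simp
  have c0 : ((((QQ K W r).erase q).filter (fun q' => 1 ∣ dd q q')).card : ℝ) ≤ (QQ K W r).card := by
    exact_mod_cast (Finset.card_filter_le _ _).trans (Finset.card_le_card (Finset.erase_subset _ _))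
  set B : ℝ := K / ((Nat.totient W : ℝ) * Real.log K) with hB
  have hB0 : 0 ≤ B := by positivity
  -- the sum
  have h3 : ∑ e ∈ (Icc 1 K).filter (fun e => e.Coprime W),
        gw b e * (((QQ K W r).erase q).filter (fun q' => e ∣ dd q q')).card ≤
      (QQ K W r).card + (∑ e ∈ Ioc z n, C * B * (Cb * (1 / ((e : ℝ) * Real.sqrt e))) +
        ∑ e ∈ Ioc n K, K * (Cb' * (1 / ((e : ℝ) * Real.sqrt e)))) := by
    set F : ℕ → ℝ := fun e => gw b e * (((QQ K W r).erase q).filter (fun q' => e ∣ dd q q')).card with hF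
    have hF0 : ∀ e, 0 ≤ F e := fun e => mul_nonneg (gw_nonneg _ _) (Nat.cast_nonneg _)
    have hsub : (Icc 1 K).filter (fun e => e.Coprime W) ⊆
        {1} ∪ ((((Icc 1 K).filter (fun e => e.Coprime W)).filter (fun e => e ∈ Ioc z n)) ∪
          (((Icc 1 K).filter (fun e => e.Coprime W)).filter (fun e => e ∈ Ioc n K))) := by
      intro e he
      have h4 := Finset.mem_filter.1 he
      have h5 := mem_Icc.1 h4.1
      rw [mem_union, mem_union, mem_singleton]
      by_cases h6 : e = 1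
      · exact Or.inl h6
      · right
        have h7 : z < e := by
          by_contra h8
          have h9 := Nat.minFac_prime h6
          have h10 : e.minFac ≤ z := le_trans (Nat.minFac_le h5.1) (by omega)
          have h11 := hzW _ h9 h10
          have h12 := Nat.Coprime.eq_one_of_dvd (Nat.Coprime.coprime_dvd_left (Nat.minFac_dvd e) h4.2) h11
          exact h9.one_lt.ne' h12
        rcases le_or_gt e n with h8 | h8
        · left; exact Finset.mem_filter.2 ⟨he, mem_Ioc.2 ⟨h7, h8⟩⟩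
        · right; exact Finset.mem_filter.2 ⟨he, mem_Ioc.2 ⟨h8, h5.2⟩⟩
    calc ∑ e ∈ (Icc 1 K).filter (fun e => e.Coprime W), F e ≤
          ∑ e ∈ {1} ∪ ((((Icc 1 K).filter (fun e => e.Coprime W)).filter (fun e => e ∈ Ioc z n)) ∪
          (((Icc 1 K).filter (fun e => e.Coprime W)).filter (fun e => e ∈ Ioc n K))), F e :=
            Finset.sum_le_sum_of_subset_of_nonneg hsub fun e _ _ => hF0 e
      _ ≤ ∑ e ∈ ({1} : Finset ℕ), F e + ∑ e ∈ ((((Icc 1 K).filter (fun e => e.Coprime W)).filter (fun e => e ∈ Ioc z n)) ∪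
          (((Icc 1 K).filter (fun e => e.Coprime W)).filter (fun e => e ∈ Ioc n K))), F e := by
            rw [← Finset.sum_union_inter]
            have := Finset.sum_nonneg (s := ({1} : Finset ℕ) ∩ ((((Icc 1 K).filter (fun e => e.Coprime W)).filter
              (fun e => e ∈ Ioc z n)) ∪ (((Icc 1 K).filter (fun e => e.Coprime W)).filter (fun e => e ∈ Ioc n K))))
              (f := F) fun e _ => hF0 e
            linarith
      _ ≤ ∑ e ∈ ({1} : Finset ℕ), F e + (∑ e ∈ (((Icc 1 K).filter (fun e => e.Coprime W)).filter (fun e => e ∈ Ioc z n)), F e +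
          ∑ e ∈ (((Icc 1 K).filter (fun e => e.Coprime W)).filter (fun e => e ∈ Ioc n K)), F e) := by
            rw [← Finset.sum_union_inter (s₁ := (((Icc 1 K).filter (fun e => e.Coprime W)).filter (fun e => e ∈ Ioc z n)))]
            have := Finset.sum_nonneg (s := (((Icc 1 K).filter (fun e => e.Coprime W)).filter (fun e => e ∈ Ioc z n)) ∩
              (((Icc 1 K).filter (fun e => e.Coprime W)).filter (fun e => e ∈ Ioc n K)))
              (f := F) fun e _ => hF0 e
            linarith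
      _ ≤ _ := by
            refine add_le_add ?_ (add_le_add ?_ ?_)
            · rw [Finset.sum_singleton, hF]
              simp only [gw, Nat.primeFactors_one, Finset.card_empty, pow_zero, Nat.cast_one, div_one, one_mul]
              exact c0
            · calc _ ≤ ∑ e ∈ (((Icc 1 K).filter (fun e => e.Coprime W)).filter (fun e => e ∈ Ioc z n)),
                    C * B * (Cb * (1 / ((e : ℝ) * Real.sqrt e))) := by
                    refine Finset.sum_le_sum fun e he => ?_
                    have h4 := Finset.mem_filter.1 he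
                    have h5 := Finset.mem_filter.1 h4.1
                    have h6 := mem_Ioc.1 h4.2
                    have he1 : 1 ≤ e := (mem_Icc.1 h5.1).1
                    have hφe : (1 : ℝ) ≤ (Nat.totient e : ℝ) := by exact_mod_cast Nat.totient_pos.2 he1
                    have h7 := c2 e h5.1 h5.2 h6.2
                    have h8 := gw_phi b e hb1 he1
                    calc F e ≤ gw b e * (C * B / (Nat.totient e : ℝ)) := mul_le_mul_of_nonneg_left h7 (gw_nonneg _ _)
                      _ = C * B * (gw b e / (Nat.totient e : ℝ)) := by ring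
                      _ ≤ C * B * (Cb * (1 / ((e : ℝ) * Real.sqrt e))) :=
                          mul_le_mul_of_nonneg_left h8 (by positivity)
                _ ≤ _ := by
                    refine Finset.sum_le_sum_of_subset_of_nonneg ?_ fun e _ _ => by positivity
                    intro e he; exact (Finset.mem_filter.1 he).2
            · calc _ ≤ ∑ e ∈ (((Icc 1 K).filter (fun e => e.Coprime W)).filter (fun e => e ∈ Ioc n K)),
                    K * (Cb' * (1 / ((e : ℝ) * Real.sqrt e))) := by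
                    refine Finset.sum_le_sum fun e he => ?_
                    have h4 := Finset.mem_filter.1 he
                    have h5 := Finset.mem_filter.1 h4.1
                    have he1 : 1 ≤ e := (mem_Icc.1 h5.1).1
                    have he' : (1 : ℝ) ≤ e := by exact_mod_cast he1
                    have h7 := c1 e h5.1 h5.2
                    have h8 := gw_e b e hb1 he1
                    calc F e ≤ gw b e * (K / e) := mul_le_mul_of_nonneg_left h7 (gw_nonneg _ _)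
                      _ = K * (gw b e / e) := by ring
                      _ ≤ K * (Cb' * (1 / ((e : ℝ) * Real.sqrt e))) :=
                          mul_le_mul_of_nonneg_left h8 (by positivity)
                _ ≤ _ := by
                    refine Finset.sum_le_sum_of_subset_of_nonneg ?_ fun e _ _ => by positivity
                    intro e he; exact (Finset.mem_filter.1 he).2
  have hz' : 0 < Real.sqrt z := Real.sqrt_pos.2 (by exact_mod_cast hz)
  have hn' : 0 < Real.sqrt n := Real.sqrt_pos.2 (by exact_mod_cast hn)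
  have h4 : ∑ e ∈ Ioc z n, C * B * (Cb * (1 / ((e : ℝ) * Real.sqrt e))) ≤ C * B * (Cb * (2 / Real.sqrt z)) := by
    rw [← Finset.mul_sum, ← Finset.mul_sum]
    refine mul_le_mul_of_nonneg_left (mul_le_mul_of_nonneg_left (tele z n hz) (by linarith)) (by positivity)
  have h5 : ∑ e ∈ Ioc n K, K * (Cb' * (1 / ((e : ℝ) * Real.sqrt e))) ≤ K * (Cb' * (2 / Real.sqrt n)) := by
    rw [← Finset.mul_sum, ← Finset.mul_sum]
    refine mul_le_mul_of_nonneg_left (mul_le_mul_of_nonneg_left (tele n K hn) (by linarith)) (by positivity)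
  have h6 : C * B * (Cb * (2 / Real.sqrt z)) ≤ (2 * C * Cb + 2 * Cb') * B / Real.sqrt z := by
    have : (2 * C * Cb + 2 * Cb') * B / Real.sqrt z = C * B * (Cb * (2 / Real.sqrt z)) + 2 * Cb' * B / Real.sqrt z := by ring
    rw [this]
    have : 0 ≤ 2 * Cb' * B / Real.sqrt z := by positivity
    linarith
  have h7 : K * (Cb' * (2 / Real.sqrt n)) ≤ (2 * C * Cb + 2 * Cb') * K / Real.sqrt n := by
    have : (2 * C * Cb + 2 * Cb') * K / Real.sqrt n = K * (Cb' * (2 / Real.sqrt n)) + 2 * C * Cb * K / Real.sqrt n := by ring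
    rw [this]
    have : 0 ≤ 2 * C * Cb * K / Real.sqrt n := by positivity
    linarith
  linarith [h1, h2.le, h2.ge, h3, h4, h5, h6, h7]

end Pool.Agent.H570.LQ
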