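import Mathlib
import Pool.Agent.H570.LQ.Ratio

/-! The second moment of the number of the primes `q` (in a residue class) at which all the forms are prime powers. -/

set_option autoImplicit false

namespace Pool.Agent.H570.LQ

open Finset

lemma S2_symm (s t H W α δ q q' : ℕ) : S2 s t H W α δ q q' = S2 s t H W α δ q' q := by
  unfold S2
  refine Finset.sum_congr rfl fun d _ => Finset.sum_congr rfl fun a _ => mul_comm _ _

lemma rat_ge_one (W D : ℕ) (hW : 1 ≤ W) (hD : 1 ≤ D) (h : W ∣ D) : 1 ≤ rat W D := by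
  rw [rat_eq W D hW hD h]
  refine Finset.one_le_prod fun p hp => ?_
  have hp2 : (2 : ℝ) ≤ p := by
    exact_mod_cast (Nat.prime_of_mem_primeFactors (Finset.mem_sdiff.1 hp).1).two_le
  have h1 : (0 : ℝ) < (p : ℝ)⁻¹ := by positivity
  have h2 : (p : ℝ)⁻¹ < 1 := inv_lt_one_of_one_lt₀ (by linarith)
  exact (one_le_inv₀ (by linarith)).2 (by linarith)

/-- all vectors in a class -/
def VV {k : ℕ} (s t : Fin k → ℕ) (H W : ℕ) (α δ : Fin k → ℕ) : Finset (Fin k → ℕ × ℕ) :=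
  Fintype.piFinset (fun i => cls (s i) H W (α i) ×ˢ cls (t i) H W (δ i))

/-- the product of the values of the von Mangoldt function -/
noncomputable def PM {k : ℕ} (v : Fin k → ℕ × ℕ) (q : ℕ) : ℝ := ∏ i, vM ((v i).1 + q * (v i).2)

lemma sum_PM {k : ℕ} (s t : Fin k → ℕ) (H W : ℕ) (α δ : Fin k → ℕ) (q : ℕ) :
    ∑ v ∈ VV s t H W α δ, PM v q = ∏ i, S1 (s i) (t i) H W (α i) (δ i) q := by
  unfold VV PM
  rw [← Finset.prod_univ_sum (fun i => cls (s i) H W (α i) ×ˢ cls (t i) H W (δ i))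
    (fun i (x : ℕ × ℕ) => vM (x.1 + q * x.2))]
  refine Finset.prod_congr rfl fun i _ => ?_
  rw [Finset.sum_product, Finset.sum_comm]
  rfl

lemma sum_PM2 {k : ℕ} (s t : Fin k → ℕ) (H W : ℕ) (α δ : Fin k → ℕ) (q q' : ℕ) :
    ∑ v ∈ VV s t H W α δ, PM v q * PM v q' = ∏ i, S2 (s i) (t i) H W (α i) (δ i) q q' := by
  unfold VV PM
  simp only [← Finset.prod_mul_distrib]
  rw [← Finset.prod_univ_sum (fun i => cls (s i) H W (α i) ×ˢ cls (t i) H W (δ i))
    (fun i (x : ℕ × ℕ) => vM (x.1 + q * x.2) * vM (x.1 + q' * x.2))]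
  refine Finset.prod_congr rfl fun i _ => ?_
  rw [Finset.sum_product, Finset.sum_comm]
  rfl

/-- hypotheses on the parameters -/
structure Hyp {k : ℕ} (s t : Fin k → ℕ) (H W r K N R : ℕ) (α δ : Fin k → ℕ) (E ρ L : ℝ) : Prop where
  ap : AP N E R
  hE : 0 ≤ E
  hEN : E ≤ N
  hW : 1 ≤ W
  hR : K * W ≤ R
  hK : 1 ≤ K
  hN : ∀ i, s i + K * (t i + H) + H ≤ N
  hcop : ∀ i, (α i + r * δ i).Coprime W
  hH : 1 ≤ H
  h1 : (4 * E + 1) * W ^ 2 ≤ ρ * H
  h2 : E * N * (K + 2) ^ 2 * W ^ 2 ≤ ρ * H ^ 2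
  hρ : ρ ≤ 1
  hρ0 : 0 ≤ ρ
  hL : Real.log N ≤ L
  hL0 : 0 ≤ L

section
variable {k : ℕ} {s t : Fin k → ℕ} {H W r K N R : ℕ} {α δ : Fin k → ℕ} {E ρ L : ℝ}

/-- the normalising factor -/
noncomputable def BB (H W : ℕ) : ℝ := (H : ℝ) ^ 2 / (W : ℝ) ^ 2

/-- the density -/
noncomputable def ww (W : ℕ) : ℝ := (W : ℝ) / (Nat.totient W : ℝ)

lemma one_le_ww (W : ℕ) (hW : 1 ≤ W) : 1 ≤ ww W := by
  unfold ww
  rw [le_div_iff₀ (by exact_mod_cast Nat.totient_pos.2 hW), one_mul]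
  exact_mod_cast Nat.totient_le W

lemma cop_of_mem (h : Hyp s t H W r K N R α δ E ρ L) (q : ℕ) (hq : q ∈ QQ K W r) (i : Fin k) :
    (α i + q * δ i).Coprime W := by
  have h1 := (Finset.mem_filter.1 hq).2.2
  have h3 : α i + q * δ i ≡ α i + r * δ i [MOD W] := (h1.mul_right (δ i)).add_left (α i)
  have h4 := h3.gcd_eq
  have h5 := h.hcop i
  unfold Nat.Coprime at h5 ⊢
  rw [h4]; exact h5

lemma le_of_mem (q : ℕ) (hq : q ∈ QQ K W r) : 1 ≤ q ∧ q ≤ K := mem_Icc.1 (Finset.mem_filter.1 hq).1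

lemma S1_bd (h : Hyp s t H W r K N R α δ E ρ L) (q : ℕ) (hq : q ∈ QQ K W r) (i : Fin k) :
    |S1 (s i) (t i) H W (α i) (δ i) q - BB H W * ww W| ≤ BB H W * ρ := by
  have hWr : (1 : ℝ) ≤ W := by exact_mod_cast h.hW
  have hHr : (1 : ℝ) ≤ H := by exact_mod_cast h.hH
  have hφ : (1 : ℝ) ≤ (Nat.totient W : ℝ) := by exact_mod_cast Nat.totient_pos.2 h.hW
  have hqK := (le_of_mem q hq).2
  have hWR : W ≤ R := le_trans (Nat.le_mul_of_pos_left W h.hK) h.hR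
  have hN : s i + q * (t i + H) + H ≤ N := by
    have := Nat.mul_le_mul_right (t i + H) hqK
    have := h.hN i
    omega
  have h1 := S1_est h.ap h.hE (s i) (t i) H W (α i) (δ i) q h.hW hWR (cop_of_mem h q hq i) hN h.hH
  have h2 : (H : ℝ) ^ 2 / (W * (Nat.totient W : ℝ)) = BB H W * ww W := by
    unfold BB ww; field_simp
  rw [h2] at h1
  refine h1.trans ?_
  unfold BB
  rw [div_mul_eq_mul_div, le_div_iff₀ (by positivity)]
  have h3 := mul_le_mul_of_nonneg_right h.h1 (show (0 : ℝ) ≤ H by linarith)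
  nlinarith

lemma S2_bd (h : Hyp s t H W r K N R α δ E ρ L) (q q' : ℕ) (hq : q ∈ QQ K W r) (hq' : q' ∈ QQ K W r) (hne : q' ≠ q)
    (i : Fin k) :
    S2 (s i) (t i) H W (α i) (δ i) q q' ≤ BB H W * (ww W ^ 2 * (1 + ρ)) * rat W (dd q q') := by
  wlog hlt : q < q' generalizing q q'
  · have h1 := this q' q hq' hq hne.symm (by omega)
    rw [S2_symm]
    have h2 : dd q q' = dd q' q := by unfold dd; omega
    rw [h2]; exact h1
  obtain ⟨D, rfl⟩ := Nat.exists_eq_add_of_lt hlt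
  have hD : dd q (q + D + 1) = D + 1 := by unfold dd; omega
  rw [hD, add_assoc]
  have hWD : W ∣ D + 1 := by
    rw [← hD, dvd_dd_iff]
    exact (Finset.mem_filter.1 hq').2.2.trans (Finset.mem_filter.1 hq).2.2.symm
  have hWr : (1 : ℝ) ≤ W := by exact_mod_cast h.hW
  have hHr : (1 : ℝ) ≤ H := by exact_mod_cast h.hH
  have hφ : (1 : ℝ) ≤ (Nat.totient W : ℝ) := by exact_mod_cast Nat.totient_pos.2 h.hW
  have hφD : (1 : ℝ) ≤ (Nat.totient (D + 1) : ℝ) := by exact_mod_cast Nat.totient_pos.2 (Nat.succ_pos D)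
  have hqK := (le_of_mem _ hq').2
  have hDK : D + 1 ≤ K := by omega
  have hDR : (D + 1) * W ≤ R := le_trans (Nat.mul_le_mul_right W hDK) h.hR
  have hN : s i + (q + (D + 1)) * (t i + H) + H ≤ N := by
    have := Nat.mul_le_mul_right (t i + H) hqK
    have := h.hN i
    rw [add_assoc] at *
    omega
  have h1 := S2_est h.ap h.hE h.hEN (s i) (t i) H W (α i) (δ i) q (D + 1) h.hW (by omega) hWD hDR hN
    (cop_of_mem h q hq i)
  have h2 : (H : ℝ) ^ 2 * ((D + 1 : ℕ) : ℝ) / (W * (Nat.totient W : ℝ) * (Nat.totient (D + 1) : ℝ)) =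
      BB H W * (ww W ^ 2 * rat W (D + 1)) := by
    unfold BB ww rat; field_simp
  rw [h2] at h1
  have h3 : E * N * (((D + 1 : ℕ) : ℝ) + 2) ^ 2 ≤ BB H W * ρ := by
    unfold BB
    rw [div_mul_eq_mul_div, le_div_iff₀ (by positivity)]
    have h4 : (((D + 1 : ℕ) : ℝ) + 2) ^ 2 ≤ ((K : ℝ) + 2) ^ 2 := by
      have : ((D + 1 : ℕ) : ℝ) ≤ K := by exact_mod_cast hDK
      gcongr
    have h5 : 0 ≤ E * N := mul_nonneg h.hE (Nat.cast_nonneg _)
    calc E * N * (((D + 1 : ℕ) : ℝ) + 2) ^ 2 * (W : ℝ) ^ 2 ≤ E * N * ((K : ℝ) + 2) ^ 2 * (W : ℝ) ^ 2 := by gcongr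
      _ ≤ ρ * H ^ 2 := h.h2
      _ = (H : ℝ) ^ 2 * ρ := by ring
  have hB : 0 ≤ BB H W := by unfold BB; positivity
  have hr := rat_ge_one W (D + 1) h.hW (by omega) hWD
  have hw := one_le_ww W h.hW
  have h6 : 1 ≤ ww W ^ 2 * rat W (D + 1) := by nlinarith [one_le_pow₀ hw (n := 2)]
  have h7 := (abs_le.1 h1).2
  have h8 : BB H W * ρ ≤ BB H W * (ρ * (ww W ^ 2 * rat W (D + 1))) :=
    mul_le_mul_of_nonneg_left (by nlinarith [h.hρ0]) hB
  nlinarith

lemma vM_le_log (n : ℕ) : vM n ≤ Real.log n := ArithmeticFunction.vonMangoldt_le_log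

lemma S2_diag (h : Hyp s t H W r K N R α δ E ρ L) (q : ℕ) (hq : q ∈ QQ K W r) (i : Fin k) :
    S2 (s i) (t i) H W (α i) (δ i) q q ≤ BB H W * (2 * L * ww W) := by
  have hqK := (le_of_mem q hq).2
  have h1 : S2 (s i) (t i) H W (α i) (δ i) q q ≤ L * S1 (s i) (t i) H W (α i) (δ i) q := by
    unfold S2 S1
    rw [Finset.mul_sum]
    refine Finset.sum_le_sum fun d hd => ?_
    rw [Finset.mul_sum]
    refine Finset.sum_le_sum fun a ha => ?_
    refine mul_le_mul_of_nonneg_right ?_ (vM_nonneg _)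
    simp only [cls, mem_filter, mem_Ioc] at hd ha
    have hle : a + q * d ≤ N := by
      have h2 := Nat.mul_le_mul hqK hd.1.2
      have := h.hN i
      omega
    refine (vM_le_log _).trans (le_trans ?_ h.hL)
    rcases Nat.eq_zero_or_pos (a + q * d) with h3 | h3
    · rw [h3]; simp; exact Real.log_natCast_nonneg N
    · exact Real.log_le_log (by exact_mod_cast h3) (by exact_mod_cast hle)
  have h2 := (abs_le.1 (S1_bd h q hq i)).2
  have hw := one_le_ww W h.hW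
  have hB : 0 ≤ BB H W := by unfold BB; positivity
  have h3 : S1 (s i) (t i) H W (α i) (δ i) q ≤ BB H W * (2 * ww W) := by
    have : BB H W * ρ ≤ BB H W * ww W := mul_le_mul_of_nonneg_left (by linarith [h.hρ]) hB
    linarith
  calc _ ≤ L * S1 (s i) (t i) H W (α i) (δ i) q := h1
    _ ≤ L * (BB H W * (2 * ww W)) := mul_le_mul_of_nonneg_left h3 h.hL0
    _ = _ := by ring

lemma S1_nonneg (s t H W α δ q : ℕ) : 0 ≤ S1 s t H W α δ q :=
  Finset.sum_nonneg fun _ _ => Finset.sum_nonneg fun _ _ => vM_nonneg _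

lemma S2_nonneg (s t H W α δ q q' : ℕ) : 0 ≤ S2 s t H W α δ q q' :=
  Finset.sum_nonneg fun _ _ => Finset.sum_nonneg fun _ _ => mul_nonneg (vM_nonneg _) (vM_nonneg _)

lemma card_VV (h : Hyp s t H W r K N R α δ E ρ L) :
    ((VV s t H W α δ).card : ℝ) ≤ BB H W ^ k * (1 + ρ) ^ (2 * k) := by
  unfold VV
  rw [Fintype.card_piFinset]
  push_cast
  have hWr : (1 : ℝ) ≤ W := by exact_mod_cast h.hW
  have hHr : (1 : ℝ) ≤ H := by exact_mod_cast h.hH
  have h0 : (H : ℝ) / W + 1 ≤ (H / W) * (1 + ρ) := by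
    have h1 : (W : ℝ) ≤ ρ * H := by
      have h2 := h.h1
      have h3 : (W : ℝ) ≤ W ^ 2 := by nlinarith
      have h4 : (W : ℝ) ^ 2 ≤ (4 * E + 1) * W ^ 2 := by
        have := mul_nonneg h.hE (sq_nonneg (W : ℝ)); nlinarith
      linarith
    have h2 : 1 ≤ (H / W : ℝ) * ρ := by
      rw [div_mul_eq_mul_div, le_div_iff₀ (by linarith)]; linarith
    linarith
  have h1 : ∀ i : Fin k, ((cls (s i) H W (α i) ×ˢ cls (t i) H W (δ i)).card : ℝ) ≤ BB H W * (1 + ρ) ^ 2 := by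
    intro i
    rw [Finset.card_product]
    push_cast
    have a1 := (card_cls_le (s i) H W (α i) h.hW).trans h0
    have a2 := (card_cls_le (t i) H W (δ i) h.hW).trans h0
    calc _ ≤ ((H / W) * (1 + ρ)) * ((H / W) * (1 + ρ)) := mul_le_mul a1 a2 (Nat.cast_nonneg _) (by
          have := h.hρ0; positivity)
      _ = BB H W * (1 + ρ) ^ 2 := by unfold BB; field_simp
  calc (∏ i : Fin k, ((cls (s i) H W (α i) ×ˢ cls (t i) H W (δ i)).card : ℝ)) ≤
        ∏ i : Fin k, (BB H W * (1 + ρ) ^ 2) := Finset.prod_le_prod (fun _ _ => Nat.cast_nonneg _) fun i _ => h1 i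
    _ = _ := by rw [Finset.prod_const, Finset.card_univ, Fintype.card_fin, mul_pow, ← pow_mul]

lemma variance (h : Hyp s t H W r K N R α δ E ρ L) (η : ℝ) (hQ : 1 ≤ (QQ K W r).card)
    (hη : ∑ q ∈ QQ K W r, ∑ q' ∈ (QQ K W r).erase q, rat W (dd q q') ^ k ≤ (1 + η) * ((QQ K W r).card : ℝ) ^ 2) :
    ∑ v ∈ VV s t H W α δ, (∑ q ∈ QQ K W r, PM v q - ww W ^ k * (QQ K W r).card) ^ 2 ≤
      BB H W ^ k * (ww W ^ k * (QQ K W r).card) ^ 2 *
        ((1 + ρ) ^ k * (1 + η) + (2 * L) ^ k / (QQ K W r).card - 2 * (1 - ρ) ^ k + (1 + ρ) ^ (2 * k)) := by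
  have hw := one_le_ww W h.hW
  have hB : 0 ≤ BB H W := by unfold BB; positivity
  have hρ0 := h.hρ0
  have hρ1 := h.hρ
  have hL0 := h.hL0
  set Q := QQ K W r with hQd
  set n : ℝ := (Q.card : ℝ) with hn
  have hn1 : (1 : ℝ) ≤ n := by rw [hn]; exact_mod_cast hQ
  set B := BB H W with hBd
  set w := ww W with hwd
  -- first moment
  have f1 : n * (B ^ k * (w ^ k * (1 - ρ) ^ k)) ≤ ∑ v ∈ VV s t H W α δ, ∑ q ∈ Q, PM v q := by
    rw [Finset.sum_comm]
    calc n * (B ^ k * (w ^ k * (1 - ρ) ^ k)) = ∑ q ∈ Q, B ^ k * (w ^ k * (1 - ρ) ^ k) := by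
          rw [Finset.sum_const, nsmul_eq_mul]
      _ ≤ _ := by
          refine Finset.sum_le_sum fun q hq => ?_
          rw [sum_PM]
          calc B ^ k * (w ^ k * (1 - ρ) ^ k) = ∏ i : Fin k, (B * (w * (1 - ρ))) := by
                rw [Finset.prod_const, Finset.card_univ, Fintype.card_fin, mul_pow, mul_pow]
            _ ≤ _ := by
                refine Finset.prod_le_prod (fun i _ => mul_nonneg hB (mul_nonneg (by linarith) (by linarith))) fun i _ => ?_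
                have h1 := (abs_le.1 (S1_bd h q hq i)).1
                have h2 : B * ρ ≤ B * (w * ρ) := mul_le_mul_of_nonneg_left (by nlinarith) hB
                nlinarith
  -- second moment
  have f2 : ∑ v ∈ VV s t H W α δ, (∑ q ∈ Q, PM v q) ^ 2 ≤
      B ^ k * w ^ (2 * k) * ((1 + ρ) ^ k * (1 + η)) * n ^ 2 + n * (B ^ k * ((2 * L) ^ k * w ^ k)) := by
    have e1 : ∀ v : Fin k → ℕ × ℕ, (∑ q ∈ Q, PM v q) ^ 2 = ∑ q ∈ Q, ∑ q' ∈ Q, PM v q * PM v q' := fun v => by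
      rw [sq, Finset.sum_mul_sum]
    simp only [e1]
    rw [Finset.sum_comm]
    have e2 : ∀ q ∈ Q, ∑ v ∈ VV s t H W α δ, ∑ q' ∈ Q, PM v q * PM v q' ≤
        B ^ k * ((2 * L) ^ k * w ^ k) + B ^ k * w ^ (2 * k) * (1 + ρ) ^ k * ∑ q' ∈ Q.erase q, rat W (dd q q') ^ k := by
      intro q hq
      rw [Finset.sum_comm, ← Finset.add_sum_erase Q _ hq]
      refine add_le_add ?_ ?_
      · rw [sum_PM2]
        calc _ ≤ ∏ i : Fin k, (B * (2 * L * w)) :=
              Finset.prod_le_prod (fun i _ => S2_nonneg _ _ _ _ _ _ _ _) fun i _ => S2_diag h q hq i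
          _ = _ := by rw [Finset.prod_const, Finset.card_univ, Fintype.card_fin, mul_pow, mul_pow]
      · rw [Finset.mul_sum]
        refine Finset.sum_le_sum fun q' hq' => ?_
        rw [sum_PM2]
        have hq2 := Finset.mem_erase.1 hq'
        calc _ ≤ ∏ i : Fin k, (B * (w ^ 2 * (1 + ρ)) * rat W (dd q q')) :=
              Finset.prod_le_prod (fun i _ => S2_nonneg _ _ _ _ _ _ _ _) fun i _ => S2_bd h q q' hq hq2.2 hq2.1 i
          _ = _ := by
              rw [Finset.prod_const, Finset.card_univ, Fintype.card_fin, mul_pow, mul_pow, mul_pow, ← pow_mul]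
              ring
    calc _ ≤ ∑ q ∈ Q, (B ^ k * ((2 * L) ^ k * w ^ k) +
          B ^ k * w ^ (2 * k) * (1 + ρ) ^ k * ∑ q' ∈ Q.erase q, rat W (dd q q') ^ k) := Finset.sum_le_sum e2
      _ = n * (B ^ k * ((2 * L) ^ k * w ^ k)) + B ^ k * w ^ (2 * k) * (1 + ρ) ^ k *
          ∑ q ∈ Q, ∑ q' ∈ Q.erase q, rat W (dd q q') ^ k := by
          rw [Finset.sum_add_distrib, Finset.sum_const, nsmul_eq_mul, ← Finset.mul_sum]
      _ ≤ n * (B ^ k * ((2 * L) ^ k * w ^ k)) + B ^ k * w ^ (2 * k) * (1 + ρ) ^ k * ((1 + η) * n ^ 2) := by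
          have : 0 ≤ B ^ k * w ^ (2 * k) * (1 + ρ) ^ k := by positivity
          have := mul_le_mul_of_nonneg_left hη this
          linarith
      _ = _ := by ring
  have f3 := card_VV h
  set M := w ^ k * n with hM
  have hM0 : 0 ≤ M := by positivity
  have e3 : ∑ v ∈ VV s t H W α δ, (∑ q ∈ Q, PM v q - M) ^ 2 =
      ∑ v ∈ VV s t H W α δ, (∑ q ∈ Q, PM v q) ^ 2 - 2 * M * ∑ v ∈ VV s t H W α δ, ∑ q ∈ Q, PM v q +
        M ^ 2 * (VV s t H W α δ).card := by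
    rw [Finset.mul_sum, ← Finset.sum_sub_distrib]
    have : M ^ 2 * ((VV s t H W α δ).card : ℝ) = ∑ v ∈ VV s t H W α δ, M ^ 2 := by
      rw [Finset.sum_const, nsmul_eq_mul, mul_comm]
    rw [this, ← Finset.sum_add_distrib]
    refine Finset.sum_congr rfl fun v _ => by ring
  rw [e3]
  have g1 := mul_le_mul_of_nonneg_left f1 (show 0 ≤ 2 * M by positivity)
  have g3 := mul_le_mul_of_nonneg_left f3 (sq_nonneg M)
  have g4 : n * (B ^ k * ((2 * L) ^ k * w ^ k)) ≤ B ^ k * M ^ 2 * ((2 * L) ^ k / n) := by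
    have hwk : 1 ≤ w ^ k := one_le_pow₀ hw
    have : B ^ k * M ^ 2 * ((2 * L) ^ k / n) = n * (B ^ k * ((2 * L) ^ k * w ^ k)) * w ^ k := by
      rw [hM]; field_simp
    rw [this]
    exact le_mul_of_one_le_right (by positivity) hwk
  have g5 : B ^ k * w ^ (2 * k) * ((1 + ρ) ^ k * (1 + η)) * n ^ 2 = B ^ k * M ^ 2 * ((1 + ρ) ^ k * (1 + η)) := by
    rw [hM, pow_mul]; ring
  have g6 : 2 * M * (n * (B ^ k * (w ^ k * (1 - ρ) ^ k))) = B ^ k * M ^ 2 * (2 * (1 - ρ) ^ k) := by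
    rw [hM]; ring
  have g7 : M ^ 2 * (B ^ k * (1 + ρ) ^ (2 * k)) = B ^ k * M ^ 2 * (1 + ρ) ^ (2 * k) := by ring
  rw [g5] at f2
  rw [g6] at g1
  rw [g7] at g3
  have : B ^ k * M ^ 2 * ((1 + ρ) ^ k * (1 + η) + (2 * L) ^ k / n - 2 * (1 - ρ) ^ k + (1 + ρ) ^ (2 * k)) =
      B ^ k * M ^ 2 * ((1 + ρ) ^ k * (1 + η)) + B ^ k * M ^ 2 * ((2 * L) ^ k / n) - B ^ k * M ^ 2 * (2 * (1 - ρ) ^ k) +
        B ^ k * M ^ 2 * (1 + ρ) ^ (2 * k) := by ring
  rw [this]
  linarith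

/-- few vectors without any `q` -/
lemma few_zero (h : Hyp s t H W r K N R α δ E ρ L) (η : ℝ) (hQ : 1 ≤ (QQ K W r).card)
    (hη : ∑ q ∈ QQ K W r, ∑ q' ∈ (QQ K W r).erase q, rat W (dd q q') ^ k ≤ (1 + η) * ((QQ K W r).card : ℝ) ^ 2) :
    (((VV s t H W α δ).filter (fun v => ∀ q ∈ QQ K W r, PM v q = 0)).card : ℝ) ≤
      BB H W ^ k *
        ((1 + ρ) ^ k * (1 + η) + (2 * L) ^ k / (QQ K W r).card - 2 * (1 - ρ) ^ k + (1 + ρ) ^ (2 * k)) := by
  have hv := variance h η hQ hη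
  have hw := one_le_ww W h.hW
  have hn1 : (1 : ℝ) ≤ ((QQ K W r).card : ℝ) := by exact_mod_cast hQ
  set M : ℝ := ww W ^ k * ((QQ K W r).card : ℝ) with hM
  have hM0 : 0 < M := by positivity
  have h1 : (((VV s t H W α δ).filter (fun v => ∀ q ∈ QQ K W r, PM v q = 0)).card : ℝ) * M ^ 2 ≤
      ∑ v ∈ VV s t H W α δ, (∑ q ∈ QQ K W r, PM v q - M) ^ 2 := by
    calc _ = ∑ v ∈ (VV s t H W α δ).filter (fun v => ∀ q ∈ QQ K W r, PM v q = 0), M ^ 2 := by
          rw [Finset.sum_const, nsmul_eq_mul]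
      _ = ∑ v ∈ (VV s t H W α δ).filter (fun v => ∀ q ∈ QQ K W r, PM v q = 0),
            (∑ q ∈ QQ K W r, PM v q - M) ^ 2 := by
          refine Finset.sum_congr rfl fun v hv => ?_
          rw [Finset.sum_eq_zero (Finset.mem_filter.1 hv).2]; ring
      _ ≤ _ := Finset.sum_le_sum_of_subset_of_nonneg (Finset.filter_subset _ _) fun _ _ _ => sq_nonneg _
  have h2 := h1.trans hv
  have hM2 : 0 < M ^ 2 := by positivity
  have h3 : BB H W ^ k * M ^ 2 *
        ((1 + ρ) ^ k * (1 + η) + (2 * L) ^ k / (QQ K W r).card - 2 * (1 - ρ) ^ k + (1 + ρ) ^ (2 * k)) =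
      (BB H W ^ k *
        ((1 + ρ) ^ k * (1 + η) + (2 * L) ^ k / (QQ K W r).card - 2 * (1 - ρ) ^ k + (1 + ρ) ^ (2 * k))) * M ^ 2 := by ring
  rw [h3] at h2
  exact le_of_mul_le_mul_right h2 hM2

end

end Pool.Agent.H570.LQ
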