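import Mathlib
import Pool.Agent.H570.LQ.Var
import Pool.Graph.R_seed8.H373R2.T7.LamMaj

/-! Auxiliary counts: primes in classes, proper prime powers, small `q`, the Chinese remainder theorem. -/

set_option autoImplicit false

namespace Pool.Agent.H570.LQ

open Finset Filter Topology

/-- proper prime powers up to `N` -/
noncomputable def PPw (N : ℕ) : Finset ℕ := by
  classical exact (Icc 1 N).filter (fun n => ¬ n.Prime ∧ vM n ≠ 0)

lemma sum_nonprime (N : ℕ) (hN : 1 ≤ N) :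
    ∑ n ∈ (Icc 1 N).filter (fun n => ¬ n.Prime), vM n ≤ 2 * Real.sqrt N * Real.log N := by
  have h1 := Chebyshev.abs_psi_sub_theta_le_sqrt_mul_log (x := (N : ℝ)) (by exact_mod_cast hN)
  have h2 : Chebyshev.psi (N : ℝ) = ∑ n ∈ Icc 1 N, vM n := by
    unfold Chebyshev.psi
    rw [Nat.floor_natCast]
    congr 1
  have h3 : Chebyshev.theta (N : ℝ) = ∑ n ∈ (Icc 1 N).filter (fun n => n.Prime), vM n := by
    unfold Chebyshev.theta
    rw [Nat.floor_natCast]
    have : (Ioc 0 N).filter Nat.Prime = (Icc 1 N).filter (fun n => n.Prime) := by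
      ext n; simp only [mem_filter, mem_Ioc, mem_Icc]; constructor <;> rintro ⟨⟨a, b⟩, c⟩ <;> exact ⟨⟨by omega, b⟩, c⟩
    rw [this]
    refine Finset.sum_congr rfl fun n hn => ?_
    exact (ArithmeticFunction.vonMangoldt_apply_prime (Finset.mem_filter.1 hn).2).symm
  have h4 := Finset.sum_filter_add_sum_filter_not (Icc 1 N) (fun n => n.Prime) vM
  rw [← h2, ← h3] at h4
  linarith [(abs_le.1 h1).2]

lemma card_PPw (N : ℕ) (hN : 1 ≤ N) : ((PPw N).card : ℝ) ≤ 4 * Real.sqrt N * Real.log N := by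
  have h1 := sum_nonprime N hN
  have h2 : ((PPw N).card : ℝ) * Real.log 2 ≤ ∑ n ∈ (Icc 1 N).filter (fun n => ¬ n.Prime), vM n := by
    rw [← nsmul_eq_mul, ← Finset.sum_const]
    calc ∑ n ∈ PPw N, Real.log 2 ≤ ∑ n ∈ PPw N, vM n := by
          refine Finset.sum_le_sum fun n hn => ?_
          unfold PPw at hn
          have h3 := (Finset.mem_filter.1 hn).2.2
          have h4 : IsPrimePow n := ArithmeticFunction.vonMangoldt_ne_zero_iff.1 h3
          have h5 : vM n = Real.log (n.minFac) := by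
            show ArithmeticFunction.vonMangoldt n = _
            rw [ArithmeticFunction.vonMangoldt_apply, if_pos h4]
          rw [h5]
          refine Real.log_le_log (by norm_num) ?_
          exact_mod_cast (Nat.minFac_prime h4.ne_one).two_le
      _ ≤ _ := by
          refine Finset.sum_le_sum_of_subset_of_nonneg ?_ fun _ _ _ => vM_nonneg _
          intro n hn
          unfold PPw at hn
          have h3 := Finset.mem_filter.1 hn
          exact Finset.mem_filter.2 ⟨h3.1, h3.2.1⟩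
  have h3 : (1 : ℝ) / 2 ≤ Real.log 2 := by have := Real.log_two_gt_d9; linarith
  have h4 : 0 ≤ ((PPw N).card : ℝ) := Nat.cast_nonneg _
  nlinarith

/-- primes in a residue class: lower bound -/
lemma QQ_lower (W : ℕ) (hW : 1 ≤ W) : ∃ K0 : ℕ, ∀ K : ℕ, K0 ≤ K → ∀ r : ℕ, r.Coprime W →
    (K : ℝ) / ((Nat.totient W : ℝ) * Real.log K) ≤ 4 * (QQ K W r).card := by
  obtain ⟨N0, h⟩ := Pool.Agent.H373R2.T7.lam_ap 1 1
  have hφ : (1 : ℝ) ≤ (Nat.totient W : ℝ) := by exact_mod_cast Nat.totient_pos.2 hW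
  have e1 : ∀ᶠ K : ℕ in atTop, (W : ℝ) ≤ Real.log K ∧ 4 * (Nat.totient W : ℝ) ≤ Real.log K :=
    ((Real.tendsto_log_atTop.comp tendsto_natCast_atTop_atTop).eventually_ge_atTop _).and
      ((Real.tendsto_log_atTop.comp tendsto_natCast_atTop_atTop).eventually_ge_atTop _)
  have e2 : ∀ᶠ K : ℕ in atTop, Real.log K ≤ (1 / (8 * (Nat.totient W : ℝ))) * (K : ℝ) ^ (1 / 2 : ℝ) := by
    have := (isLittleO_log_rpow_atTop (show (0 : ℝ) < 1 / 2 by norm_num)).bound
      (show (0 : ℝ) < 1 / (8 * (Nat.totient W : ℝ)) by positivity)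
    filter_upwards [tendsto_natCast_atTop_atTop.eventually this, eventually_ge_atTop 1] with K hK hK1
    rw [Real.norm_eq_abs, Real.norm_eq_abs, abs_of_nonneg (Real.log_natCast_nonneg K),
      abs_of_nonneg (by positivity)] at hK
    exact hK
  obtain ⟨K1, hK1⟩ := eventually_atTop.1 (e1.and e2)
  refine ⟨max N0 (max K1 3), fun K hK r hr => ?_⟩
  have hKN : N0 ≤ K := le_trans (le_max_left _ _) hK
  obtain ⟨⟨a1, a2⟩, a3⟩ := hK1 K (le_trans (le_trans (le_max_left _ _) (le_max_right _ _)) hK)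
  have hK3 : 3 ≤ K := le_trans (le_trans (le_max_right _ _) (le_max_right _ _)) hK
  have hKr : (3 : ℝ) ≤ K := by exact_mod_cast hK3
  have hlog : 0 < Real.log K := Real.log_pos (by linarith)
  have h1 := h K hKN W hW (by rw [pow_one]; exact a1) r K le_rfl
  rw [if_pos hr, pow_one] at h1
  have h2 : ∑ n ∈ (Icc 1 K).filter (fun n => n ≡ r [MOD W]), vM n ≤
      (QQ K W r).card * Real.log K + 2 * Real.sqrt K * Real.log K := by
    have h3 := Finset.sum_filter_add_sum_filter_not ((Icc 1 K).filter (fun n => n ≡ r [MOD W])) (fun n => n.Prime) vM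
    rw [← h3]
    refine add_le_add ?_ ?_
    · have h4 : ((Icc 1 K).filter (fun n => n ≡ r [MOD W])).filter (fun n => n.Prime) = QQ K W r := by
        unfold QQ; ext n; simp only [mem_filter]; tauto
      rw [h4, ← nsmul_eq_mul, ← Finset.sum_const]
      refine Finset.sum_le_sum fun q hq => (vM_le_log q).trans ?_
      have := le_of_mem q hq
      exact Real.log_le_log (by exact_mod_cast this.1) (by exact_mod_cast this.2)
    · refine le_trans ?_ (sum_nonprime K (by omega))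
      refine Finset.sum_le_sum_of_subset_of_nonneg ?_ fun _ _ _ => vM_nonneg _
      intro n hn
      simp only [mem_filter] at hn ⊢
      exact ⟨hn.1.1, hn.2⟩
  have h3 := (abs_le.1 h1).1
  have h4 : (K : ℝ) / Real.log K ≤ K / (4 * (Nat.totient W : ℝ)) :=
    div_le_div_of_nonneg_left (by linarith) (by positivity) a2
  have h5 : 2 * Real.sqrt K * Real.log K ≤ K / (4 * (Nat.totient W : ℝ)) := by
    have h6 : Real.sqrt K * Real.sqrt K = K := Real.mul_self_sqrt (by linarith)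
    rw [← Real.sqrt_eq_rpow] at a3
    calc 2 * Real.sqrt K * Real.log K ≤ 2 * Real.sqrt K * ((1 / (8 * (Nat.totient W : ℝ))) * Real.sqrt K) :=
          mul_le_mul_of_nonneg_left a3 (by positivity)
      _ = (Real.sqrt K * Real.sqrt K) / (4 * (Nat.totient W : ℝ)) := by field_simp; ring
      _ = _ := by rw [h6]
  have h6 : ∑ n ∈ (Icc 1 K).filter (fun n => n ≡ r [MOD W]), ArithmeticFunction.vonMangoldt n ≤
      (QQ K W r).card * Real.log K + 2 * Real.sqrt K * Real.log K := h2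
  rw [div_le_iff₀ (by positivity)]
  have h7 : (K : ℝ) / (4 * (Nat.totient W : ℝ)) = (K / (Nat.totient W : ℝ)) / 4 := by field_simp
  rw [h7] at h4 h5
  have h8 : (K : ℝ) / (Nat.totient W : ℝ) / 4 ≤ (QQ K W r).card * Real.log K := by
    have : 0 ≤ (K : ℝ) / (Nat.totient W : ℝ) := by positivity
    linarith
  have h9 : (K : ℝ) = (K / (Nat.totient W : ℝ)) * (Nat.totient W : ℝ) := by field_simp
  have h10 : (K : ℝ) / (Nat.totient W : ℝ) ≤ 4 * ((QQ K W r).card * Real.log K) := by linarith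
  have h11 := mul_le_mul_of_nonneg_right h10 (show (0:ℝ) ≤ (Nat.totient W : ℝ) by linarith)
  rw [← h9] at h11
  linarith

/-- products of primes up to `z` -/
def PW (z : ℕ) : ℕ := ∏ p ∈ (Icc 1 z).filter Nat.Prime, p

lemma PW_pos (z : ℕ) : 1 ≤ PW z := Nat.one_le_iff_ne_zero.2 (Finset.prod_ne_zero_iff.2 fun p hp =>
  (Finset.mem_filter.1 hp).2.ne_zero)

lemma dvd_PW (z p : ℕ) (hp : p.Prime) (hpz : p ≤ z) : p ∣ PW z :=
  Finset.dvd_prod_of_mem _ (Finset.mem_filter.2 ⟨mem_Icc.2 ⟨hp.one_lt.le, hpz⟩, hp⟩)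

lemma coprime_PW (z x : ℕ) (h : ∀ p : ℕ, p.Prime → p ≤ z → ¬ p ∣ x) : x.Coprime (PW z) := by
  unfold PW
  refine Nat.Coprime.prod_right fun p hp => ?_
  have h1 := Finset.mem_filter.1 hp
  rw [Nat.coprime_comm, Nat.Prime.coprime_iff_not_dvd h1.2]
  exact h p h1.2 (mem_Icc.1 h1.1).2

/-- no fixed prime divisor -/
def Adm {k : ℕ} (v : Fin k → ℕ × ℕ) : Prop :=
  ∀ p : ℕ, p.Prime → ∃ x : ℕ, ¬ p ∣ x ∧ ∀ i, ¬ p ∣ (v i).1 + x * (v i).2

lemma exists_r {k : ℕ} (v : Fin k → ℕ × ℕ) (hv : Adm v) (z : ℕ) :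
    ∃ r : ℕ, r.Coprime (PW z) ∧ ∀ i, ((v i).1 % PW z + r * ((v i).2 % PW z)).Coprime (PW z) := by
  choose! x hx1 hx2 using hv
  have hs : ∀ p ∈ (Icc 1 z).filter Nat.Prime, p ≠ 0 := fun p hp => (Finset.mem_filter.1 hp).2.ne_zero
  have hc : Set.Pairwise (((Icc 1 z).filter Nat.Prime : Finset ℕ) : Set ℕ) (Function.onFun Nat.Coprime (fun p : ℕ => p)) := by
    intro p hp q hq hpq
    have h1 := (Finset.mem_filter.1 (Finset.mem_coe.1 hp)).2
    have h2 := (Finset.mem_filter.1 (Finset.mem_coe.1 hq)).2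
    exact (Nat.coprime_primes h1 h2).2 hpq
  obtain ⟨r, hr⟩ := Nat.chineseRemainderOfFinset (fun p => x p) (fun p : ℕ => p) ((Icc 1 z).filter Nat.Prime) hs hc
  refine ⟨r, ?_, fun i => ?_⟩
  · refine coprime_PW z r fun p hp hpz h => ?_
    have h1 := hr p (Finset.mem_filter.2 ⟨mem_Icc.2 ⟨hp.one_lt.le, hpz⟩, hp⟩)
    exact hx1 p hp ((h1.dvd_iff (dvd_refl p)).1 h)
  · refine coprime_PW z _ fun p hp hpz h => ?_
    have h1 := hr p (Finset.mem_filter.2 ⟨mem_Icc.2 ⟨hp.one_lt.le, hpz⟩, hp⟩)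
    have h2 := dvd_PW z p hp hpz
    have h3 : (v i).1 % PW z + r * ((v i).2 % PW z) ≡ (v i).1 + x p * (v i).2 [MOD p] :=
      ((Nat.mod_modEq _ _).of_dvd h2).add (h1.mul ((Nat.mod_modEq _ _).of_dvd h2))
    exact hx2 p hp i ((h3.dvd_iff (dvd_refl p)).1 h)

/-- all vectors in a box -/
def Box {k : ℕ} (s t : Fin k → ℕ) (H : ℕ) : Finset (Fin k → ℕ × ℕ) :=
  Fintype.piFinset (fun i => Ioc (s i) (s i + H) ×ˢ Ioc (t i) (t i + H))

/-- one coordinate in a small set -/
lemma card_coord {k : ℕ} (s t : Fin k → ℕ) (H : ℕ) (i : Fin k) (P : ℕ × ℕ → Prop) [DecidablePred P] (κ : ℝ) (hκ : 0 ≤ κ)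
    (h : (((Ioc (s i) (s i + H) ×ˢ Ioc (t i) (t i + H)).filter P).card : ℝ) ≤ κ * (H : ℝ) ^ 2) :
    (((Box s t H).filter (fun v => P (v i))).card : ℝ) ≤ κ * (H : ℝ) ^ (2 * k) := by
  classical
  have h1 : (((Box s t H).filter (fun v => P (v i))).card : ℝ) =
      ∑ v ∈ Box s t H, ∏ j, (if j = i then (if P (v j) then (1 : ℝ) else 0) else 1) := by
    rw [Finset.card_filter]
    push_cast
    refine Finset.sum_congr rfl fun v _ => ?_
    rw [Finset.prod_ite_eq' univ i (fun j => if P (v j) then (1 : ℝ) else 0)]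
    simp
  rw [h1]
  unfold Box
  rw [← Finset.prod_univ_sum (fun i => Ioc (s i) (s i + H) ×ˢ Ioc (t i) (t i + H))
    (fun j (x : ℕ × ℕ) => (if j = i then (if P x then (1 : ℝ) else 0) else 1))]
  calc ∏ j, ∑ x ∈ Ioc (s j) (s j + H) ×ˢ Ioc (t j) (t j + H), (if j = i then (if P x then (1 : ℝ) else 0) else 1) ≤
      ∏ j : Fin k, ((H : ℝ) ^ 2 * (if j = i then κ else 1)) := by
        refine Finset.prod_le_prod (fun j _ => Finset.sum_nonneg fun x _ => by split_ifs <;> norm_num) fun j _ => ?_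
        by_cases hj : j = i
        · subst hj
          simp only [if_true]
          rw [Finset.sum_boole, mul_comm]
          exact h
        · simp only [if_neg hj]
          rw [Finset.sum_const, Finset.card_product, Nat.card_Ioc, Nat.card_Ioc, Nat.add_sub_cancel_left,
            Nat.add_sub_cancel_left, nsmul_eq_mul]
          push_cast
          apply le_of_eq; ring
    _ = κ * (H : ℝ) ^ (2 * k) := by
        rw [Finset.prod_mul_distrib, Finset.prod_ite_eq' univ i (fun _ => κ), if_pos (Finset.mem_univ i),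
          Finset.prod_const, Finset.card_univ, Fintype.card_fin, ← pow_mul, mul_comm]

lemma card_pairs_PP (s t H q N : ℕ) (hN : s + q * (t + H) + H ≤ N) :
    (((Ioc s (s + H) ×ˢ Ioc t (t + H)).filter (fun x => x.1 + q * x.2 ∈ PPw N)).card : ℝ) ≤ H * (PPw N).card := by
  classical
  have h1 : ((Ioc s (s + H) ×ˢ Ioc t (t + H)).filter (fun x => x.1 + q * x.2 ∈ PPw N)).card ≤
      (PPw N ×ˢ Ioc t (t + H)).card := by
    refine Finset.card_le_card_of_injOn (fun x => (x.1 + q * x.2, x.2)) ?_ ?_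
    · intro x hx
      have hx' := Finset.mem_filter.1 (Finset.mem_coe.1 hx)
      have h2 := Finset.mem_product.1 hx'.1
      exact Finset.mem_coe.2 (Finset.mem_product.2 ⟨hx'.2, h2.2⟩)
    · rintro ⟨a, d⟩ _ ⟨a', d'⟩ _ h
      simp only [Prod.mk.injEq] at h
      obtain ⟨h2, h3⟩ := h
      subst h3
      simp only [Prod.mk.injEq, and_true]
      omega
  rw [Finset.card_product, Nat.card_Ioc, Nat.add_sub_cancel_left] at h1
  have : (((Ioc s (s + H) ×ˢ Ioc t (t + H)).filter (fun x => x.1 + q * x.2 ∈ PPw N)).card : ℝ) ≤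
      ((PPw N).card * H : ℕ) := by exact_mod_cast h1
  push_cast at this
  linarith

end Pool.Agent.H570.LQ
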