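import Mathlib
import Pool.Agent.H570.LQ.Extra

/-! The choice of the modulus, and the exceptional sets. -/

set_option autoImplicit false

namespace Pool.Agent.H570.LQ

open Finset Filter Topology

lemma ev1 (c : ℝ) : ∀ᶠ H : ℕ in atTop, c ≤ Real.log H :=
  (Real.tendsto_log_atTop.comp tendsto_natCast_atTop_atTop).eventually_ge_atTop c

lemma ev2 (c : ℝ) : ∀ᶠ H : ℕ in atTop, c ≤ Real.log (Real.log H) :=
  (Real.tendsto_log_atTop.comp (Real.tendsto_log_atTop.comp tendsto_natCast_atTop_atTop)).eventually_ge_atTop c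

lemma ev3 (c : ℝ) (hc : 0 < c) : ∀ᶠ H : ℕ in atTop, Real.log (Real.log H) ≤ c * Real.log H := by
  have h1 := (Real.isLittleO_log_id_atTop.bound hc)
  have h2 := (Real.tendsto_log_atTop.comp tendsto_natCast_atTop_atTop).eventually h1
  filter_upwards [h2, ev1 1] with H h3 h4
  simp only [Function.comp_apply, id_eq, Real.norm_eq_abs] at h3
  rw [abs_of_nonneg (Real.log_nonneg h4), abs_of_nonneg (by linarith)] at h3
  exact h3

lemma ev4 (n : ℕ) (c : ℝ) (hc : 0 < c) : ∀ᶠ H : ℕ in atTop, Real.log H ^ n ≤ c * Real.sqrt H := by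
  have h1 := (Real.isLittleO_pow_log_id_atTop (n := 2 * n)).bound (show 0 < c ^ 2 by positivity)
  filter_upwards [tendsto_natCast_atTop_atTop.eventually h1, ev1 1] with H h3 h4
  simp only [id_eq, Real.norm_eq_abs] at h3
  rw [abs_of_nonneg (by positivity), abs_of_nonneg (Nat.cast_nonneg _)] at h3
  have h5 : Real.log H ^ n ≤ Real.sqrt (c ^ 2 * H) := by
    apply Real.le_sqrt_of_sq_le
    rw [← pow_mul, mul_comm n 2]; exact h3
  rw [Real.sqrt_mul (by positivity), Real.sqrt_sq hc.le] at h5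
  exact h5

lemma ratio_final (k : ℕ) (η : ℝ) (hη : 0 < η) : ∃ z K0 : ℕ, ∀ K : ℕ, K0 ≤ K → ∀ r : ℕ, r.Coprime (PW z) →
    1 ≤ (QQ K (PW z) r).card ∧
    ∑ q ∈ QQ K (PW z) r, ∑ q' ∈ (QQ K (PW z) r).erase q, rat (PW z) (dd q q') ^ k ≤
      (1 + η) * ((QQ K (PW z) r).card : ℝ) ^ 2 ∧
    (K : ℝ) / ((Nat.totient (PW z) : ℝ) * Real.log K) ≤ 4 * (QQ K (PW z) r).card := by
  obtain ⟨C1, hC1, hr⟩ := ratio_avg k
  -- choose z
  obtain ⟨z, hz⟩ : ∃ z : ℕ, 1 ≤ z ∧ 4 * C1 / Real.sqrt z ≤ η / 2 := by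
    obtain ⟨z, hz⟩ := exists_nat_ge ((8 * C1 / η) ^ 2 + 1)
    have hz1 : (1 : ℝ) ≤ z := le_trans (by nlinarith [sq_nonneg (8 * C1 / η)]) hz
    refine ⟨z, by exact_mod_cast hz1, ?_⟩
    have h1 : 8 * C1 / η ≤ Real.sqrt z := by
      apply Real.le_sqrt_of_sq_le; linarith
    have h2 : 0 < Real.sqrt z := Real.sqrt_pos.2 (by linarith)
    rw [div_le_iff₀ h2]
    rw [div_le_iff₀ hη] at h1
    linarith
  set W := PW z with hWd
  have hW : 1 ≤ W := PW_pos z
  have hWr : (1 : ℝ) ≤ W := by exact_mod_cast hW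
  have hφ : (1 : ℝ) ≤ (Nat.totient W : ℝ) := by exact_mod_cast Nat.totient_pos.2 hW
  have hφW : (Nat.totient W : ℝ) ≤ W := by exact_mod_cast Nat.totient_le W
  obtain ⟨K1, hK1⟩ := QQ_lower W hW
  -- log K small
  set c : ℝ := η / (2 * (4 * C1 * W * (2 * W))) with hc
  have hc0 : 0 < c := by positivity
  have e2 : ∀ᶠ K : ℕ in atTop, Real.log K ≤ c * (K : ℝ) ^ (1 / 4 : ℝ) := by
    have := (isLittleO_log_rpow_atTop (show (0 : ℝ) < 1 / 4 by norm_num)).bound hc0
    filter_upwards [tendsto_natCast_atTop_atTop.eventually this, eventually_ge_atTop 1] with K hK hK1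
    rw [Real.norm_eq_abs, Real.norm_eq_abs, abs_of_nonneg (Real.log_natCast_nonneg K),
      abs_of_nonneg (by positivity)] at hK
    exact hK
  obtain ⟨K2, hK2⟩ := eventually_atTop.1 e2
  refine ⟨z, max K1 (max K2 (16 * (W + 1) ^ 2)), fun K hK r hcop => ?_⟩
  have a1 := hK1 K (le_trans (le_max_left _ _) hK) r hcop
  have a2 := hK2 K (le_trans (le_trans (le_max_left _ _) (le_max_right _ _)) hK)
  have a3 : 16 * (W + 1) ^ 2 ≤ K := le_trans (le_trans (le_max_right _ _) (le_max_right _ _)) hK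
  have hK16 : 16 ≤ K := le_trans (by nlinarith) a3
  have hKr : (16 : ℝ) ≤ K := by exact_mod_cast hK16
  have hlog : 0 < Real.log K := Real.log_pos (by linarith)
  set Q := QQ K W r with hQ
  have hQ1 : (0 : ℝ) < Q.card := by
    have : 0 < (K : ℝ) / ((Nat.totient W : ℝ) * Real.log K) := by positivity
    linarith
  have hQ1' : 1 ≤ Q.card := by exact_mod_cast hQ1
  refine ⟨hQ1', ?_, a1⟩
  -- n
  set n := Nat.sqrt K / W with hn
  have hsq : 4 * (W + 1) ≤ Nat.sqrt K := by
    rw [Nat.le_sqrt']; calc (4 * (W + 1)) ^ 2 = 16 * (W + 1) ^ 2 := by ring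
      _ ≤ K := a3
  have hn1 : 1 ≤ n := (Nat.one_le_div_iff hW).2 (by omega)
  have hnlow : Real.sqrt K / (2 * W) ≤ n := by
    have h1 : Real.sqrt K ≤ Nat.sqrt K + 1 := by
      have h2 : K < (Nat.sqrt K + 1) ^ 2 := Nat.lt_succ_sqrt' K
      rw [Real.sqrt_le_left (by positivity)]
      exact_mod_cast h2.le
    have h2 : Nat.sqrt K < (n + 1) * W := by
      have := Nat.lt_mul_div_succ (Nat.sqrt K) hW
      rw [mul_comm]; exact this
    have h3 : (Nat.sqrt K : ℝ) ≤ (n + 1) * W := by exact_mod_cast h2.le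
    have h4 : (4 : ℝ) * (W + 1) ≤ Nat.sqrt K := by exact_mod_cast hsq
    rw [div_le_iff₀ (by positivity)]
    nlinarith
  have hn0 : 0 < Real.sqrt n := Real.sqrt_pos.2 (by exact_mod_cast hn1)
  have key : C1 * K / Real.sqrt n ≤ (η / 2) * Q.card := by
    have b1 : 4 * C1 * (Nat.totient W : ℝ) * Real.log K ≤ (η / 2) * Real.sqrt n := by
      have b2 : 4 * C1 * (Nat.totient W : ℝ) * Real.log K ≤ 4 * C1 * W * (c * (K : ℝ) ^ (1 / 4 : ℝ)) := by
        have : 4 * C1 * (Nat.totient W : ℝ) ≤ 4 * C1 * W := by nlinarith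
        exact mul_le_mul this a2 hlog.le (by positivity)
      have b3 : 4 * C1 * W * (c * (K : ℝ) ^ (1 / 4 : ℝ)) = (η / 2) * ((K : ℝ) ^ (1 / 4 : ℝ) / (2 * W)) := by
        rw [hc]; field_simp
      have b4 : (K : ℝ) ^ (1 / 4 : ℝ) / (2 * W) ≤ Real.sqrt n := by
        apply Real.le_sqrt_of_sq_le
        have b5 : ((K : ℝ) ^ (1 / 4 : ℝ)) ^ 2 = Real.sqrt K := by
          rw [← Real.rpow_natCast, ← Real.rpow_mul (by linarith), Real.sqrt_eq_rpow]
          norm_num
        rw [div_pow, b5]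
        refine le_trans ?_ hnlow
        refine div_le_div_of_nonneg_left (Real.sqrt_nonneg _) (by positivity) ?_
        nlinarith
      calc _ ≤ _ := b2
        _ = _ := b3
        _ ≤ _ := mul_le_mul_of_nonneg_left b4 (by positivity)
    rw [div_le_iff₀ hn0]
    rw [div_le_iff₀ (by positivity)] at a1
    calc C1 * K ≤ C1 * (4 * Q.card * ((Nat.totient W : ℝ) * Real.log K)) :=
          mul_le_mul_of_nonneg_left a1 (by linarith)
      _ = Q.card * (4 * C1 * (Nat.totient W : ℝ) * Real.log K) := by ring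
      _ ≤ Q.card * ((η / 2) * Real.sqrt n) := mul_le_mul_of_nonneg_left b1 hQ1.le
      _ = _ := by ring
  have key2 : C1 * (K / ((Nat.totient W : ℝ) * Real.log K)) / Real.sqrt z ≤ (η / 2) * Q.card := by
    have hz0 : 0 < Real.sqrt z := Real.sqrt_pos.2 (by exact_mod_cast hz.1)
    calc _ ≤ C1 * (4 * Q.card) / Real.sqrt z :=
          div_le_div_of_nonneg_right (mul_le_mul_of_nonneg_left a1 (by linarith)) hz0.le
      _ = (4 * C1 / Real.sqrt z) * Q.card := by ring
      _ ≤ _ := mul_le_mul_of_nonneg_right hz.2 hQ1.le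
  calc _ ≤ ∑ q ∈ Q, ((1 + η) * (Q.card : ℝ)) := by
        refine Finset.sum_le_sum fun q hq => ?_
        have h1 := hr K W r z hz.1 hW (fun p hp hpz => dvd_PW z p hp hpz) hn1 (by omega) q hq
        linarith
    _ = _ := by rw [Finset.sum_const, nsmul_eq_mul]; ring

/-- few vectors with a proper prime power -/
lemma bad2 {k : ℕ} (s t : Fin k → ℕ) (H K N : ℕ) (hH : 1 ≤ H) (hN : ∀ i, s i + K * (t i + H) + H ≤ N) :
    (((Box s t H).filter (fun v => ∃ q ∈ Icc 1 K, ∃ i, (v i).1 + q * (v i).2 ∈ PPw N)).card : ℝ) ≤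
      K * k * ((PPw N).card / H) * (H : ℝ) ^ (2 * k) := by
  classical
  have hHr : (1 : ℝ) ≤ H := by exact_mod_cast hH
  have h1 : (Box s t H).filter (fun v => ∃ q ∈ Icc 1 K, ∃ i, (v i).1 + q * (v i).2 ∈ PPw N) ⊆
      (Icc 1 K ×ˢ (univ : Finset (Fin k))).biUnion
        (fun x => (Box s t H).filter (fun v => (v x.2).1 + x.1 * (v x.2).2 ∈ PPw N)) := by
    intro v hv
    have h2 := Finset.mem_filter.1 hv
    obtain ⟨q, hq, i, hi⟩ := h2.2
    exact Finset.mem_biUnion.2 ⟨(q, i), Finset.mem_product.2 ⟨hq, Finset.mem_univ i⟩, Finset.mem_filter.2 ⟨h2.1, hi⟩⟩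
  have h2 : ((((Icc 1 K ×ˢ (univ : Finset (Fin k))).biUnion
        (fun x => (Box s t H).filter (fun v => (v x.2).1 + x.1 * (v x.2).2 ∈ PPw N))).card : ℕ) : ℝ) ≤
      ∑ x ∈ Icc 1 K ×ˢ (univ : Finset (Fin k)), ((PPw N).card / H : ℝ) * (H : ℝ) ^ (2 * k) := by
    calc _ ≤ ∑ x ∈ Icc 1 K ×ˢ (univ : Finset (Fin k)),
          (((Box s t H).filter (fun v => (v x.2).1 + x.1 * (v x.2).2 ∈ PPw N)).card : ℝ) := by
            exact_mod_cast Finset.card_biUnion_le
      _ ≤ _ := by
            refine Finset.sum_le_sum fun x hx => ?_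
            refine card_coord s t H x.2 (fun y => y.1 + x.1 * y.2 ∈ PPw N) _ (by positivity) ?_
            have h3 := (mem_Icc.1 (Finset.mem_product.1 hx).1).2
            have h4 := card_pairs_PP (s x.2) (t x.2) H x.1 N (by
              have := Nat.mul_le_mul_right (t x.2 + H) h3
              have := hN x.2
              omega)
            calc _ ≤ _ := h4
              _ = _ := by field_simp
  calc _ ≤ ((((Icc 1 K ×ˢ (univ : Finset (Fin k))).biUnion
        (fun x => (Box s t H).filter (fun v => (v x.2).1 + x.1 * (v x.2).2 ∈ PPw N))).card : ℕ) : ℝ) := by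
          exact_mod_cast Finset.card_le_card h1
    _ ≤ _ := h2
    _ = _ := by
        rw [Finset.sum_const, Finset.card_product, Nat.card_Icc, Finset.card_univ, Fintype.card_fin, nsmul_eq_mul]
        push_cast
        ring

/-- few vectors with a small `q` -/
lemma bad3 : ∃ C : ℝ, 1 ≤ C ∧ ∀ (k : ℕ) (s t : Fin k → ℕ) (H K0 : ℕ), 2 ≤ H → 1 ≤ K0 →
    (((Box s t H).filter (fun v => ∃ q : ℕ, q ≤ K0 ∧ q.Prime ∧ ∀ i, ((v i).1 + q * (v i).2).Prime)).card : ℝ) ≤
      C * (((K0 + 1 : ℕ) : ℝ) / Real.log ((K0 + 1 : ℕ) : ℝ)) * ((C / Real.log H) ^ k * (H : ℝ) ^ (2 * k)) := by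
  classical
  obtain ⟨C, hC, hBT⟩ := Pool.Agent.Helper602.MK.BTLib.brun_titchmarsh
  refine ⟨C, hC, fun k s t H K0 hH hK0 => ?_⟩
  have hHr : (2 : ℝ) ≤ H := by exact_mod_cast hH
  have hlog : 0 < Real.log H := Real.log_pos (by linarith)
  -- a single pair
  have h1 : ∀ (i : Fin k) (q : ℕ), (((Ioc (s i) (s i + H) ×ˢ Ioc (t i) (t i + H)).filter
      (fun x => (x.1 + q * x.2).Prime)).card : ℝ) ≤ C / Real.log H * (H : ℝ) ^ 2 := by
    intro i q
    have h2 : ∀ d : ℕ, (((Ioc (s i) (s i + H)).filter (fun a => (a + q * d).Prime)).card : ℝ) ≤ C * H / Real.log H := by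
      intro d
      have h3 := hBT (s i + 1 + q * d) 1 H le_rfl hH
      simp only [Nat.totient_one, Nat.cast_one, div_one, mul_one] at h3
      refine le_trans ?_ h3
      have h4 : ((Ioc (s i) (s i + H)).filter (fun a => (a + q * d).Prime)).card ≤
          ((range H).filter (fun k => (s i + 1 + q * d + k).Prime)).card := by
        refine Finset.card_le_card_of_injOn (fun a => a - (s i + 1)) ?_ ?_
        · intro a ha
          have h5 := Finset.mem_filter.1 (Finset.mem_coe.1 ha)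
          have h6 := mem_Ioc.1 h5.1
          refine Finset.mem_coe.2 (Finset.mem_filter.2 ⟨Finset.mem_range.2 (by show a - (s i + 1) < H; omega), ?_⟩)
          have : s i + 1 + q * d + (a - (s i + 1)) = a + q * d := by omega
          show (s i + 1 + q * d + (a - (s i + 1))).Prime
          rw [this]; exact h5.2
        · intro a ha b hb hab
          have h5 := mem_Ioc.1 (Finset.mem_filter.1 (Finset.mem_coe.1 ha)).1
          have h6 := mem_Ioc.1 (Finset.mem_filter.1 (Finset.mem_coe.1 hb)).1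
          have : a - (s i + 1) = b - (s i + 1) := hab
          omega
      exact_mod_cast h4
    have h3 : ((Ioc (s i) (s i + H) ×ˢ Ioc (t i) (t i + H)).filter (fun x => (x.1 + q * x.2).Prime)).card =
        ∑ d ∈ Ioc (t i) (t i + H), ((Ioc (s i) (s i + H)).filter (fun a => (a + q * d).Prime)).card := by
      simp only [Finset.card_filter]
      rw [Finset.sum_product_right]
    rw [h3]
    push_cast
    calc _ ≤ ∑ d ∈ Ioc (t i) (t i + H), C * H / Real.log H := Finset.sum_le_sum fun d _ => h2 d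
      _ = _ := by
        rw [Finset.sum_const, Nat.card_Ioc, Nat.add_sub_cancel_left, nsmul_eq_mul]; ring
  -- all pairs
  have h2 : ∀ q : ℕ, (((Box s t H).filter (fun v => ∀ i, ((v i).1 + q * (v i).2).Prime)).card : ℝ) ≤
      (C / Real.log H) ^ k * (H : ℝ) ^ (2 * k) := by
    intro q
    have h3 : (Box s t H).filter (fun v => ∀ i, ((v i).1 + q * (v i).2).Prime) =
        Fintype.piFinset (fun i => (Ioc (s i) (s i + H) ×ˢ Ioc (t i) (t i + H)).filter (fun x => (x.1 + q * x.2).Prime)) := by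
      ext v
      simp only [Box, Fintype.mem_piFinset, mem_filter]
      exact ⟨fun h i => ⟨h.1 i, h.2 i⟩, fun h => ⟨fun i => (h i).1, fun i => (h i).2⟩⟩
    rw [h3, Fintype.card_piFinset]
    push_cast
    calc _ ≤ ∏ i : Fin k, (C / Real.log H * (H : ℝ) ^ 2) :=
          Finset.prod_le_prod (fun _ _ => Nat.cast_nonneg _) fun i _ => h1 i q
      _ = _ := by rw [Finset.prod_const, Finset.card_univ, Fintype.card_fin, mul_pow, ← pow_mul]
  have h3 : (Box s t H).filter (fun v => ∃ q : ℕ, q ≤ K0 ∧ q.Prime ∧ ∀ i, ((v i).1 + q * (v i).2).Prime) ⊆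
      ((range (K0 + 1)).filter Nat.Prime).biUnion
        (fun q => (Box s t H).filter (fun v => ∀ i, ((v i).1 + q * (v i).2).Prime)) := by
    intro v hv
    have h4 := Finset.mem_filter.1 hv
    obtain ⟨q, hq, hqp, hqi⟩ := h4.2
    exact Finset.mem_biUnion.2 ⟨q, Finset.mem_filter.2 ⟨Finset.mem_range.2 (by omega), hqp⟩, Finset.mem_filter.2 ⟨h4.1, hqi⟩⟩
  have h4 : (((range (K0 + 1)).filter Nat.Prime).card : ℝ) ≤
      C * (((K0 + 1 : ℕ) : ℝ) / Real.log ((K0 + 1 : ℕ) : ℝ)) := by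
    have h5 := hBT 0 1 (K0 + 1) le_rfl (by omega)
    simp only [Nat.totient_one, Nat.cast_one, div_one, mul_one, zero_add] at h5
    rw [mul_div_assoc] at h5
    exact h5
  calc _ ≤ ((((range (K0 + 1)).filter Nat.Prime).biUnion
        (fun q => (Box s t H).filter (fun v => ∀ i, ((v i).1 + q * (v i).2).Prime))).card : ℝ) := by
          exact_mod_cast Finset.card_le_card h3
    _ ≤ ∑ q ∈ (range (K0 + 1)).filter Nat.Prime,
          (((Box s t H).filter (fun v => ∀ i, ((v i).1 + q * (v i).2).Prime)).card : ℝ) := by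
          exact_mod_cast Finset.card_biUnion_le
    _ ≤ ∑ q ∈ (range (K0 + 1)).filter Nat.Prime, (C / Real.log H) ^ k * (H : ℝ) ^ (2 * k) :=
          Finset.sum_le_sum fun q _ => h2 q
    _ = (((range (K0 + 1)).filter Nat.Prime).card : ℝ) * ((C / Real.log H) ^ k * (H : ℝ) ^ (2 * k)) := by
          rw [Finset.sum_const, nsmul_eq_mul]
    _ ≤ _ := mul_le_mul_of_nonneg_right h4 (by positivity)

/-- the vectors without `q`, over all classes -/
lemma bad1 {k : ℕ} (s t : Fin k → ℕ) (H z K : ℕ) (τ : ℝ) (hH : 1 ≤ H) (hτ : 0 ≤ τ)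
    (h : ∀ (α δ : Fin k → ℕ) (r : ℕ), r.Coprime (PW z) → (∀ i, (α i + r * δ i).Coprime (PW z)) →
      (((VV s t H (PW z) α δ).filter (fun v => ∀ q ∈ QQ K (PW z) r, PM v q = 0)).card : ℝ) ≤
        BB H (PW z) ^ k * τ) :
    ∀ F : Finset (Fin k → ℕ × ℕ), (∀ v ∈ F, v ∈ Box s t H ∧ Adm v ∧ ∀ q ∈ Icc 1 K, q.Prime → PM v q = 0) →
    (F.card : ℝ) ≤ τ * (H : ℝ) ^ (2 * k) := by
  classical
  intro F hF
  set W := PW z with hW
  have hWpos : 1 ≤ W := PW_pos z
  have hWr : (1 : ℝ) ≤ W := by exact_mod_cast hWpos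
  set cl : Finset (Fin k → ℕ × ℕ) := (Fintype.piFinset (fun _ : Fin k => range W ×ˢ range W)) with hcl
  have h1 : ∀ v ∈ F, (fun i => ((v i).1 % W, (v i).2 % W)) ∈ cl := by
    intro v _
    rw [hcl, Fintype.mem_piFinset]
    intro i
    exact Finset.mem_product.2 ⟨Finset.mem_range.2 (Nat.mod_lt _ hWpos), Finset.mem_range.2 (Nat.mod_lt _ hWpos)⟩
  rw [Finset.card_eq_sum_card_fiberwise h1]
  push_cast
  have h2 : ∀ c ∈ cl, ((F.filter (fun v => (fun i => ((v i).1 % W, (v i).2 % W)) = c)).card : ℝ) ≤ BB H W ^ k * τ := by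
    intro c _
    rcases (F.filter (fun v => (fun i => ((v i).1 % W, (v i).2 % W)) = c)).eq_empty_or_nonempty with h0 | ⟨v0, hv0⟩
    · rw [h0]
      simp only [Finset.card_empty, Nat.cast_zero]
      unfold BB; positivity
    · have h3 := Finset.mem_filter.1 hv0
      obtain ⟨r, hr1, hr2⟩ := exists_r v0 (hF v0 h3.1).2.1 z
      have h4 := h (fun i => (c i).1) (fun i => (c i).2) r hr1 (fun i => by
        rw [← h3.2]; exact hr2 i)
      refine le_trans ?_ h4
      have h5 : (F.filter (fun v => (fun i => ((v i).1 % W, (v i).2 % W)) = c)) ⊆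
          ((VV s t H W (fun i => (c i).1) (fun i => (c i).2)).filter (fun v => ∀ q ∈ QQ K W r, PM v q = 0)) := by
        intro v hv
        have h6 := Finset.mem_filter.1 hv
        have h7 := hF v h6.1
        refine Finset.mem_filter.2 ⟨?_, fun q hq => ?_⟩
        · unfold VV
          rw [Fintype.mem_piFinset]
          intro i
          have h8 : v i ∈ Ioc (s i) (s i + H) ×ˢ Ioc (t i) (t i + H) := by
            have := h7.1
            unfold Box at this
            exact Fintype.mem_piFinset.1 this i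
          have h9 := Finset.mem_product.1 h8
          have h10 : c i = ((v i).1 % W, (v i).2 % W) := by rw [← h6.2]
          refine Finset.mem_product.2 ⟨Finset.mem_filter.2 ⟨h9.1, ?_⟩, Finset.mem_filter.2 ⟨h9.2, ?_⟩⟩
          · show (v i).1 ≡ (c i).1 [MOD W]
            rw [h10]; exact (Nat.mod_modEq _ _).symm
          · show (v i).2 ≡ (c i).2 [MOD W]
            rw [h10]; exact (Nat.mod_modEq _ _).symm
        · have h8 := Finset.mem_filter.1 hq
          exact h7.2.2 q h8.1 h8.2.1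
      exact_mod_cast Finset.card_le_card h5
  calc _ ≤ ∑ c ∈ cl, BB H W ^ k * τ := Finset.sum_le_sum h2
    _ = τ * (H : ℝ) ^ (2 * k) := by
        rw [Finset.sum_const, nsmul_eq_mul, hcl, Fintype.card_piFinset]
        simp only [Finset.card_product, Finset.card_range, Finset.prod_const, Finset.card_univ, Fintype.card_fin]
        push_cast
        unfold BB
        rw [div_pow, ← pow_mul, ← pow_mul, ← pow_two, ← pow_mul]
        field_simp

end Pool.Agent.H570.LQ
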