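import Mathlib
import Pool.Agent.H570.LQ.Par

/-! The order of magnitude of the least prime `q` for almost all vectors of pairs. -/

set_option autoImplicit false

namespace Pool.Agent.H570.LQ

open Finset Filter Topology

/-- the length of the range of `q` -/
noncomputable def KK (k : ℕ) (C : ℝ) (H : ℕ) : ℕ := ⌊C * Real.log H ^ k * Real.log (Real.log H)⌋₊

lemma paramsK (k : ℕ) (C : ℝ) (hC : 0 < C) (K0 : ℕ) : ∀ᶠ H : ℕ in atTop,
    C * Real.log H ^ k * Real.log (Real.log H) / 2 ≤ KK k C H ∧ (KK k C H : ℝ) ≤ Real.log H ^ (k + 1) ∧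
    Real.log (KK k C H) ≤ (k + 1) * Real.log (Real.log H) ∧ K0 ≤ KK k C H ∧ 2 ≤ KK k C H ∧
    (KK k C H : ℝ) ≤ C * Real.log H ^ k * Real.log (Real.log H) := by
  filter_upwards [ev1 1, ev2 1, ev3 (1 / C) (by positivity), ev2 ((K0 + 5) / C)] with H h1 h2 h3 h4
  set x := Real.log H
  set y := Real.log x
  have hxk : 1 ≤ x ^ k := one_le_pow₀ h1
  have h5 : C * x ^ k * y ≤ x ^ (k + 1) := by
    have : C * y ≤ x := by
      have := mul_le_mul_of_nonneg_left h3 hC.le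
      calc C * y ≤ C * (1 / C * x) := this
        _ = x := by field_simp
    calc C * x ^ k * y = x ^ k * (C * y) := by ring
      _ ≤ x ^ k * x := mul_le_mul_of_nonneg_left this (by positivity)
      _ = x ^ (k + 1) := (pow_succ x k).symm
  have h6 : (K0 : ℝ) + 5 ≤ C * x ^ k * y := by
    have : (K0 : ℝ) + 5 ≤ C * y := by
      rw [div_le_iff₀ hC] at h4; linarith
    have h7 : C * y ≤ x ^ k * (C * y) := le_mul_of_one_le_left (by positivity) hxk
    calc _ ≤ C * y := this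
      _ ≤ _ := h7
      _ = _ := by ring
  have hK0r : (0 : ℝ) ≤ K0 := Nat.cast_nonneg _
  have f1 : ((KK k C H : ℕ) : ℝ) ≤ C * x ^ k * y := Nat.floor_le (by linarith)
  have f2 : C * x ^ k * y < (KK k C H : ℕ) + 1 := Nat.lt_floor_add_one _
  have f3 : K0 + 4 ≤ KK k C H := by
    have : (K0 : ℝ) + 4 < (KK k C H : ℕ) + 1 - 0 := by linarith
    have h8 : ((K0 + 4 : ℕ) : ℝ) < ((KK k C H + 1 : ℕ) : ℝ) := by push_cast; linarith
    have := Nat.cast_lt.1 h8
    omega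
  have f4 : ((4 : ℕ) : ℝ) ≤ (KK k C H : ℕ) := by exact_mod_cast (by omega : 4 ≤ KK k C H)
  refine ⟨by push_cast at f4; linarith, f1.trans h5, ?_, by omega, by omega, f1⟩
  have h9 : Real.log (KK k C H : ℕ) ≤ Real.log (x ^ (k + 1)) :=
    Real.log_le_log (by push_cast at f4; linarith) (f1.trans h5)
  rw [Real.log_pow] at h9
  push_cast at h9
  exact h9

/-- the bound for the values -/
noncomputable def NN (k A H : ℕ) : ℕ := ⌊(H : ℝ) * Real.log H ^ (A + k + 2)⌋₊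

lemma NN_facts (k A : ℕ) : ∀ᶠ H : ℕ in atTop, H ≤ NN k A H ∧ (NN k A H : ℝ) ≤ H * Real.log H ^ (A + k + 2) ∧
    Real.log (NN k A H) ≤ 2 * Real.log H ∧ Real.log H ≤ Real.log (NN k A H) ∧
    ∀ (K : ℕ) (s t : ℕ), (K : ℝ) ≤ Real.log H ^ (k + 1) → (s : ℝ) ≤ H * Real.log H ^ A → (t : ℝ) ≤ H * Real.log H ^ A →
      s + K * (t + H) + H ≤ NN k A H := by
  filter_upwards [ev1 4, ev3 (1 / ((A + k + 2 : ℕ) : ℝ)) (by positivity), eventually_ge_atTop 3] with H h1 h2 h3
  set x := Real.log H with hx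
  have hH : (3 : ℝ) ≤ H := by exact_mod_cast h3
  have hxB : 1 ≤ x ^ (A + k + 2) := one_le_pow₀ (by linarith)
  have hxA : 1 ≤ x ^ A := one_le_pow₀ (by linarith)
  have hxk : 1 ≤ x ^ (k + 1) := one_le_pow₀ (by linarith)
  have f0 : (H : ℝ) ≤ H * x ^ (A + k + 2) := le_mul_of_one_le_right (by linarith) hxB
  have f1 : H ≤ NN k A H := Nat.le_floor f0
  have f2 : (NN k A H : ℝ) ≤ H * x ^ (A + k + 2) := Nat.floor_le (by positivity)
  have f1r : (H : ℝ) ≤ NN k A H := by exact_mod_cast f1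
  refine ⟨f1, f2, ?_, Real.log_le_log (by linarith) f1r, fun K s t hK hs ht => ?_⟩
  · have h4 : Real.log (NN k A H) ≤ Real.log (H * x ^ (A + k + 2)) := Real.log_le_log (by linarith) f2
    rw [Real.log_mul (by linarith) (by positivity), Real.log_pow] at h4
    have h5 : ((A + k + 2 : ℕ) : ℝ) * Real.log x ≤ x := by
      have hp : (0 : ℝ) < ((A + k + 2 : ℕ) : ℝ) := by positivity
      have := mul_le_mul_of_nonneg_left h2 hp.le
      calc _ ≤ ((A + k + 2 : ℕ) : ℝ) * (1 / ((A + k + 2 : ℕ) : ℝ) * x) := this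
        _ = x := by field_simp
    linarith
  · apply Nat.le_floor
    push_cast
    have hs' : (s : ℝ) ≤ H * x ^ (A + k + 1) := hs.trans (mul_le_mul_of_nonneg_left
      (pow_le_pow_right₀ (by linarith) (by omega)) (by linarith))
    have h6 : (K : ℝ) * (t + H) ≤ 2 * (H * x ^ (A + k + 1)) := by
      have h7 : (t : ℝ) + H ≤ 2 * (H * x ^ A) := by
        have : (H : ℝ) ≤ H * x ^ A := le_mul_of_one_le_right (by linarith) hxA
        linarith
      calc (K : ℝ) * (t + H) ≤ x ^ (k + 1) * (2 * (H * x ^ A)) :=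
            mul_le_mul hK h7 (by positivity) (by positivity)
        _ = 2 * (H * (x ^ (k + 1) * x ^ A)) := by ring
        _ = 2 * (H * x ^ (A + k + 1)) := by rw [← pow_add]; congr 3; ring
    have h8 : (H : ℝ) ≤ H * x ^ (A + k + 1) := le_mul_of_one_le_right (by linarith) (one_le_pow₀ (by linarith))
    calc (s : ℝ) + K * (t + H) + H ≤ 4 * (H * x ^ (A + k + 1)) := by linarith
      _ ≤ x * (H * x ^ (A + k + 1)) := mul_le_mul_of_nonneg_right h1 (by positivity)
      _ = H * x ^ (A + k + 2) := by ring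

lemma params (k A W : ℕ) (hW : 1 ≤ W) (ρ : ℝ) (hρ : 0 < ρ) (hρ1 : ρ ≤ 1) : ∀ᶠ H : ℕ in atTop,
    ∀ K : ℕ, 1 ≤ K → (K : ℝ) ≤ Real.log H ^ (k + 1) → ∀ s t : Fin k → ℕ,
    (∀ i, (s i : ℝ) ≤ H * Real.log H ^ A ∧ (t i : ℝ) ≤ H * Real.log H ^ A) → ∃ (R : ℕ) (E : ℝ),
    ∀ (α δ : Fin k → ℕ) (r : ℕ), (∀ i, (α i + r * δ i).Coprime W) → Hyp s t H W r K (NN k A H) R α δ E ρ (2 * Real.log H) := by
  set B := A + k + 2 with hB
  set U := 2 * B + 2 * k + 7 with hU
  obtain ⟨N0, hap⟩ := Pool.Agent.H373R2.T7.lam_ap (k + 2) U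
  filter_upwards [NN_facts k A, ev1 (max W 4), ev1 (8 / ρ), ev4 2 (Real.sqrt (ρ / 2)) (Real.sqrt_pos.2 (by positivity)),
    eventually_ge_atTop (max N0 3)] with H h1 h2 h3 h4 h5 K hK1 hK s t hst
  obtain ⟨f1, f2, f3, f4, f5⟩ := h1
  set N := NN k A H with hN
  set x := Real.log H with hx
  have hH3 : 3 ≤ H := le_trans (le_max_right _ _) h5
  have hHr : (3 : ℝ) ≤ H := by exact_mod_cast hH3
  have hx4 : (4 : ℝ) ≤ x := le_trans (le_max_right _ _) h2
  have hWx : (W : ℝ) ≤ x := le_trans (le_max_left _ _) h2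
  have hNN0 : N0 ≤ N := le_trans (le_trans (le_max_left _ _) h5) f1
  have hNr : (3 : ℝ) ≤ N := by
    have : (H : ℝ) ≤ N := by exact_mod_cast f1
    linarith
  set R := ⌊Real.log N ^ (k + 2)⌋₊ with hR
  set E := (N : ℝ) / Real.log N ^ U with hE
  have hWr : (1 : ℝ) ≤ W := by exact_mod_cast hW
  have hx0 : 0 < x := by linarith
  have hlN : x ≤ Real.log N := f4
  have hxU : 1 ≤ x ^ U := one_le_pow₀ (by linarith)
  have hE0 : 0 ≤ E := by positivity
  -- bounds of E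
  have hEb : E ≤ H * x ^ B / x ^ U := by
    rw [hE]
    exact div_le_div₀ (by positivity) f2 (by positivity) (pow_le_pow_left₀ hx0.le hlN U)
  have hE1 : E ≤ H / x ^ (B + 2 * k + 7) := by
    refine hEb.trans (le_of_eq ?_)
    have : x ^ U = x ^ B * x ^ (B + 2 * k + 7) := by rw [← pow_add]; congr 1; omega
    rw [this]; field_simp
  have hE2 : E * W ^ 2 ≤ ρ / 8 * H := by
    calc E * W ^ 2 ≤ (H / x ^ (B + 2 * k + 7)) * x ^ 2 := by
          apply mul_le_mul hE1 (pow_le_pow_left₀ (by linarith) hWx 2) (by positivity) (by positivity)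
      _ ≤ H / x := by
          rw [div_mul_eq_mul_div, div_le_div_iff₀ (by positivity) hx0]
          have : x ^ 2 * x ≤ x ^ (B + 2 * k + 7) := by
            rw [← pow_succ]; exact pow_le_pow_right₀ (by linarith) (by omega)
          calc (H : ℝ) * x ^ 2 * x = H * (x ^ 2 * x) := by ring
            _ ≤ H * x ^ (B + 2 * k + 7) := mul_le_mul_of_nonneg_left this (by linarith)
      _ ≤ ρ / 8 * H := by
          rw [div_le_iff₀ hx0]
          rw [div_le_iff₀ hρ] at h3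
          nlinarith
  have hW2 : (W : ℝ) ^ 2 ≤ ρ / 2 * H := by
    have h6 : (x ^ 2) ^ 2 ≤ (Real.sqrt (ρ / 2) * Real.sqrt H) ^ 2 := pow_le_pow_left₀ (by positivity) h4 2
    rw [mul_pow, Real.sq_sqrt (by positivity), Real.sq_sqrt (by linarith)] at h6
    calc (W : ℝ) ^ 2 ≤ x ^ 2 := pow_le_pow_left₀ (by linarith) hWx 2
      _ ≤ (x ^ 2) ^ 2 := by
          have : 1 ≤ x ^ 2 := one_le_pow₀ (by linarith)
          nlinarith
      _ ≤ _ := h6
  refine ⟨R, E, fun α δ r hcop => ?_⟩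
  refine ⟨?_, hE0, ?_, hW, ?_, hK1, fun i => f5 K (s i) (t i) hK (hst i).1 (hst i).2, hcop, by omega, ?_, ?_, hρ1, hρ.le, f3, by linarith⟩
  · intro m hm hmR c y hy
    refine hap N hNN0 m hm ?_ c y hy
    have : (m : ℝ) ≤ R := by exact_mod_cast hmR
    exact this.trans (Nat.floor_le (by positivity))
  · rw [hE]
    exact div_le_self (by linarith) (one_le_pow₀ (by linarith))
  · apply Nat.le_floor
    push_cast
    calc (K : ℝ) * W ≤ x ^ (k + 1) * x := mul_le_mul hK hWx (by linarith) (by positivity)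
      _ = x ^ (k + 2) := (pow_succ x (k + 1)).symm
      _ ≤ _ := pow_le_pow_left₀ hx0.le hlN _
  · nlinarith
  · have hK2 : ((K : ℝ) + 2) ^ 2 ≤ x ^ (2 * k + 4) := by
      have h6 : (K : ℝ) + 2 ≤ x ^ (k + 2) := by
        have h7 : 1 ≤ x ^ (k + 1) := one_le_pow₀ (by linarith)
        calc (K : ℝ) + 2 ≤ x ^ (k + 1) + 2 * x ^ (k + 1) := by linarith
          _ ≤ x ^ (k + 1) * x := by nlinarith
          _ = x ^ (k + 2) := (pow_succ x (k + 1)).symm
      calc ((K : ℝ) + 2) ^ 2 ≤ (x ^ (k + 2)) ^ 2 := pow_le_pow_left₀ (by positivity) h6 2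
        _ = x ^ (2 * k + 4) := by rw [← pow_mul]; congr 1; ring
    have hEN : E * N ≤ H ^ 2 / x ^ (2 * k + 7) := by
      calc E * N ≤ (H / x ^ (B + 2 * k + 7)) * (H * x ^ B) := mul_le_mul hE1 f2 (by positivity) (by positivity)
        _ = H ^ 2 / x ^ (2 * k + 7) := by
            have : x ^ (B + 2 * k + 7) = x ^ B * x ^ (2 * k + 7) := by ring
            rw [this]; field_simp
    calc E * N * ((K : ℝ) + 2) ^ 2 * (W : ℝ) ^ 2 ≤ (H ^ 2 / x ^ (2 * k + 7)) * x ^ (2 * k + 4) * x ^ 2 := by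
          apply mul_le_mul (mul_le_mul hEN hK2 (by positivity) (by positivity)) (pow_le_pow_left₀ (by linarith) hWx 2)
            (by positivity) (by positivity)
      _ = H ^ 2 / x := by
          have : x ^ (2 * k + 7) = x ^ (2 * k + 4) * x ^ 2 * x := by ring
          rw [this]; field_simp
      _ ≤ ρ * H ^ 2 := by
          rw [div_le_iff₀ hx0]
          rw [div_le_iff₀ hρ] at h3
          have : (0 : ℝ) ≤ (H : ℝ) ^ 2 := by positivity
          nlinarith

lemma tau_le (k : ℕ) (η : ℝ) (hη : 0 < η) (hη1 : η ≤ 1) (ρ : ℝ) (hρ0 : 0 ≤ ρ) (hρ1 : ρ ≤ 1)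
    (hρ : ρ * (5 * 2 ^ k + 4 ^ k) ≤ η) (u : ℝ) (hu : u ≤ η) :
    (1 + ρ) ^ k * (1 + η) + u - 2 * (1 - ρ) ^ k + (1 + ρ) ^ (2 * k) ≤ 4 * η := by
  have h2k : (1 : ℝ) ≤ 2 ^ k := one_le_pow₀ (by norm_num)
  have h1 : (1 + ρ) ^ k ≤ 1 + 2 ^ k * ρ := (one_add_pow_le ρ hρ0 hρ1 k).trans (by nlinarith)
  have h2 : (1 + ρ) ^ (2 * k) ≤ 1 + 4 ^ k * ρ := by
    have := (one_add_pow_le ρ hρ0 hρ1 (2 * k))
    have h3 : (2 : ℝ) ^ (2 * k) = 4 ^ k := by rw [pow_mul]; norm_num
    rw [h3] at this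
    nlinarith
  have h3 : 1 - (k : ℝ) * ρ ≤ (1 - ρ) ^ k := by
    have := one_add_mul_le_pow (show (-2 : ℝ) ≤ -ρ by linarith) k
    have h4 : (1 : ℝ) + k * -ρ = 1 - k * ρ := by ring
    rw [h4] at this
    have h5 : (1 : ℝ) + -ρ = 1 - ρ := by ring
    rw [h5] at this
    exact this
  have hk2 : (k : ℝ) ≤ 2 ^ k := by exact_mod_cast Nat.lt_two_pow_self.le
  have h4 : (k : ℝ) * ρ ≤ 2 ^ k * ρ := mul_le_mul_of_nonneg_right hk2 hρ0
  have h5 : (1 + ρ) ^ k * (1 + η) ≤ (1 + 2 ^ k * ρ) * (1 + η) := mul_le_mul_of_nonneg_right h1 (by linarith)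
  have h6 : (1 + 2 ^ k * ρ) * (1 + η) = 1 + η + 2 ^ k * ρ + 2 ^ k * ρ * η := by ring
  have h7 : 2 ^ k * ρ * η ≤ 2 ^ k * ρ := mul_le_of_le_one_right (by positivity) hη1
  nlinarith

/-- no `q ≤ K` -/
def NoQ {k : ℕ} (K : ℕ) (v : Fin k → ℕ × ℕ) : Prop := Adm v ∧ ∀ q ∈ Icc 1 K, q.Prime → PM v q = 0

open Classical in
/-- the exceptional vectors -/
noncomputable def Exc {k : ℕ} (s t : Fin k → ℕ) (H : ℕ) (c C : ℝ) : Finset (Fin k → ℕ × ℕ) :=
  (Box s t H).filter (fun v => Adm v ∧ ¬ ∃ q : ℕ, IsLeast {q : ℕ | q.Prime ∧ ∀ i, ((v i).1 + q * (v i).2).Prime} q ∧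
    c * Real.log H ^ k * Real.log (Real.log H) ≤ q ∧ q ≤ C * Real.log H ^ k * Real.log (Real.log H))

theorem main (k : ℕ) (hk : 1 ≤ k) (ε : ℝ) (hε : 0 < ε) : ∃ c C : ℝ, 0 < c ∧ 0 < C ∧ ∀ A : ℕ, ∀ᶠ H : ℕ in atTop,
    ∀ s t : Fin k → ℕ, (∀ i, (s i : ℝ) ≤ H * Real.log H ^ A ∧ (t i : ℝ) ≤ H * Real.log H ^ A) →
    ((Exc s t H c C).card : ℝ) ≤ ε * (H : ℝ) ^ (2 * k) := by
  classical
  -- parameters
  set η : ℝ := min 1 (ε / 12) with hη
  have hη0 : 0 < η := lt_min one_pos (by positivity)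
  have hη1 : η ≤ 1 := min_le_left _ _
  have hηε : 4 * η ≤ ε / 3 := by have := min_le_right 1 (ε / 12); linarith
  set ρ : ℝ := η / (5 * 2 ^ k + 4 ^ k) with hρ
  have h2k : (1 : ℝ) ≤ 2 ^ k := one_le_pow₀ (by norm_num)
  have h4k : (1 : ℝ) ≤ 4 ^ k := one_le_pow₀ (by norm_num)
  have hρ0 : 0 < ρ := by positivity
  have hρη : ρ * (5 * 2 ^ k + 4 ^ k) ≤ η := by rw [hρ, div_mul_cancel₀ _ (by positivity)]
  have hρ1 : ρ ≤ 1 := by
    rw [hρ, div_le_one (by positivity)]; linarith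
  obtain ⟨z, K0, hrat⟩ := ratio_final k η hη0
  set W := PW z with hWd
  have hW : 1 ≤ W := PW_pos z
  have hφ : (1 : ℝ) ≤ (Nat.totient W : ℝ) := by exact_mod_cast Nat.totient_pos.2 hW
  obtain ⟨C3, hC3, hb3⟩ := bad3
  set C : ℝ := 8 * 4 ^ k * (Nat.totient W : ℝ) * (k + 1) / η with hC
  have hC0 : 0 < C := by positivity
  set c : ℝ := ε / (12 * C3 ^ (k + 1)) with hc
  have hc0 : 0 < c := by positivity
  refine ⟨c, C, hc0, hC0, fun A => ?_⟩
  filter_upwards [paramsK k C hC0 K0, NN_facts k A, params k A W hW ρ hρ0 hρ1, ev1 4, ev2 1,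
    ev4 (A + 2 * k + 4) (ε / (24 * (k + 1))) (by positivity), paramsK k c hc0 1, ev2 (-2 * Real.log (min c 1)), eventually_ge_atTop 3] with
    H hKf hNf hpar hx4 hy1 hsmall hKf' hyc hH3 s t hst
  obtain ⟨g1, g2, g3, g4, g5, g6⟩ := hKf
  obtain ⟨f1, f2, f3, f4, f5⟩ := hNf
  obtain ⟨d1, d2, d3, d4, d5, d6⟩ := hKf'
  set K := KK k C H with hK
  set K1 := KK k c H with hK1
  set N := NN k A H with hN
  set x := Real.log H with hx
  set y := Real.log x with hy
  have hHr : (3 : ℝ) ≤ H := by exact_mod_cast hH3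
  have hKr : (2 : ℝ) ≤ K := by exact_mod_cast g5
  have hxk : 1 ≤ x ^ k := one_le_pow₀ (by linarith)
  obtain ⟨R, E, hyp⟩ := hpar K (by omega) g2 s t hst
  have hNall : ∀ i, s i + K * (t i + H) + H ≤ N := fun i => f5 K (s i) (t i) g2 (hst i).1 (hst i).2
  -- the vectors without q
  have hlogK : 0 < Real.log K := Real.log_pos (by linarith)
  have hclass : ∀ (α δ : Fin k → ℕ) (r : ℕ), r.Coprime (PW z) → (∀ i, (α i + r * δ i).Coprime (PW z)) →
      (((VV s t H (PW z) α δ).filter (fun v => ∀ q ∈ QQ K (PW z) r, PM v q = 0)).card : ℝ) ≤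
        BB H (PW z) ^ k * (4 * η) := by
    intro α δ r hr hcop
    obtain ⟨q1, q2, q3⟩ := hrat K g4 r hr
    have h1 := few_zero (hyp α δ r hcop) η q1 q2
    refine h1.trans (mul_le_mul_of_nonneg_left ?_ (by unfold BB; positivity))
    refine tau_le k η hη0 hη1 ρ hρ0.le hρ1 hρη _ ?_
    have hQ0 : (0 : ℝ) < (QQ K (PW z) r).card := by exact_mod_cast q1
    rw [div_le_iff₀ hQ0]
    have h2 : C * x ^ k / (8 * (Nat.totient W : ℝ) * (k + 1)) ≤ (QQ K (PW z) r).card := by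
      have h3 : C * x ^ k / (2 * ((Nat.totient W : ℝ) * (k + 1))) ≤ (K : ℝ) / ((Nat.totient W : ℝ) * Real.log K) := by
        rw [div_le_div_iff₀ (by positivity) (by positivity)]
        have h4 : C * x ^ k * ((Nat.totient W : ℝ) * Real.log K) ≤ C * x ^ k * ((Nat.totient W : ℝ) * ((k + 1) * y)) := by
          gcongr
        have h5 : C * x ^ k * ((Nat.totient W : ℝ) * ((k + 1) * y)) =
            (C * x ^ k * y / 2) * (2 * ((Nat.totient W : ℝ) * (k + 1))) := by ring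
        rw [h5] at h4
        refine h4.trans (mul_le_mul_of_nonneg_right g1 (by positivity))
      have h4 : C * x ^ k / (8 * (Nat.totient W : ℝ) * (k + 1)) = (C * x ^ k / (2 * ((Nat.totient W : ℝ) * (k + 1)))) / 4 := by
        field_simp; ring
      rw [h4, div_le_iff₀ (by norm_num)]
      linarith
    have h3 : C * x ^ k / (8 * (Nat.totient W : ℝ) * (k + 1)) = 4 ^ k * x ^ k / η := by
      rw [hC]; field_simp
    rw [h3, div_le_iff₀ hη0] at h2
    have h4 : (2 * (2 * x)) ^ k = 4 ^ k * x ^ k := by rw [← mul_assoc, mul_pow]; norm_num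
    rw [h4]
    linarith
  have hB1 := bad1 s t H z K (4 * η) (by omega) (by linarith) hclass
  -- prime powers
  have hB2 := bad2 s t H K N (by omega) hNall
  have hB2' : (K : ℝ) * k * ((PPw N).card / H) * (H : ℝ) ^ (2 * k) ≤ ε / 3 * (H : ℝ) ^ (2 * k) := by
    refine mul_le_mul_of_nonneg_right ?_ (by positivity)
    have hN1 : 1 ≤ N := by omega
    have h1 := card_PPw N hN1
    have hNr : (0 : ℝ) < N := by exact_mod_cast hN1
    have h2 : Real.sqrt N ≤ Real.sqrt H * x ^ (A + k + 2) := by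
      have h3 : Real.sqrt N ≤ Real.sqrt (H * x ^ (A + k + 2)) := Real.sqrt_le_sqrt f2
      rw [Real.sqrt_mul (by positivity)] at h3
      refine h3.trans (mul_le_mul_of_nonneg_left ?_ (Real.sqrt_nonneg _))
      rw [Real.sqrt_le_left (by positivity)]
      have : 1 ≤ x ^ (A + k + 2) := one_le_pow₀ (by linarith)
      nlinarith
    have h3 : ((PPw N).card : ℝ) ≤ 4 * (Real.sqrt H * x ^ (A + k + 2)) * (2 * x) := by
      refine h1.trans ?_
      exact mul_le_mul (mul_le_mul_of_nonneg_left h2 (by norm_num)) f3 (Real.log_natCast_nonneg N) (by positivity)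
    have hHs : Real.sqrt H * Real.sqrt H = H := Real.mul_self_sqrt (by linarith)
    have hsH : 0 < Real.sqrt H := Real.sqrt_pos.2 (by linarith)
    calc (K : ℝ) * k * ((PPw N).card / H) ≤ x ^ (k + 1) * k * ((4 * (Real.sqrt H * x ^ (A + k + 2)) * (2 * x)) / H) := by
          gcongr
      _ = 8 * k * x ^ (A + 2 * k + 4) / Real.sqrt H := by
          have e1 : x ^ (A + 2 * k + 4) = x ^ (k + 1) * x ^ (A + k + 2) * x := by rw [← pow_add, ← pow_succ]; congr 1; omega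
          have e2 : Real.sqrt H / H = 1 / Real.sqrt H := by
            rw [div_eq_div_iff (by linarith) (by positivity), one_mul]; exact hHs
          calc x ^ (k + 1) * k * ((4 * (Real.sqrt H * x ^ (A + k + 2)) * (2 * x)) / H) =
                8 * k * (x ^ (k + 1) * x ^ (A + k + 2) * x) * (Real.sqrt H / H) := by ring
            _ = _ := by rw [e2, e1]; ring
      _ ≤ 8 * k * (ε / (24 * (k + 1)) * Real.sqrt H) / Real.sqrt H := by gcongr
      _ = ε / 3 * (k / (k + 1)) := by field_simp; ring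
      _ ≤ ε / 3 := by
          have : (k : ℝ) / (k + 1) ≤ 1 := by rw [div_le_one (by positivity)]; linarith
          nlinarith
  -- small q
  have hB3 := hb3 k s t H K1 (by omega) d4
  have hB3' : C3 * (((K1 + 1 : ℕ) : ℝ) / Real.log ((K1 + 1 : ℕ) : ℝ)) * ((C3 / Real.log H) ^ k * (H : ℝ) ^ (2 * k)) ≤
      ε / 3 * (H : ℝ) ^ (2 * k) := by
    have h1 : ((K1 + 1 : ℕ) : ℝ) ≤ 2 * (c * x ^ k * y) := by
      have : (1 : ℝ) ≤ K1 := by exact_mod_cast d4
      push_cast; linarith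
    have h2 : y / 2 ≤ Real.log ((K1 + 1 : ℕ) : ℝ) := by
      have h3 : min c 1 * x ^ k * y ≤ ((K1 + 1 : ℕ) : ℝ) := by
        have h4 : c * x ^ k * y < (K1 : ℝ) + 1 := Nat.lt_floor_add_one _
        have h5 : min c 1 * x ^ k * y ≤ c * x ^ k * y := by
          have := min_le_left c 1
          gcongr
        push_cast; linarith
      have hm0 : 0 < min c 1 := lt_min hc0 one_pos
      have h4 : min c 1 * x ≤ ((K1 + 1 : ℕ) : ℝ) := by
        refine le_trans ?_ h3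
        have h5 : x ≤ x ^ k := le_self_pow₀ (by linarith) (by omega)
        calc min c 1 * x ≤ min c 1 * x ^ k := mul_le_mul_of_nonneg_left h5 hm0.le
          _ ≤ min c 1 * x ^ k * y := le_mul_of_one_le_right (by positivity) hy1
      have h5 := Real.log_le_log (by positivity) h4
      rw [Real.log_mul hm0.ne' (by linarith)] at h5
      linarith
    have hK1p : (0 : ℝ) ≤ ((K1 + 1 : ℕ) : ℝ) := Nat.cast_nonneg _
    have h3 : ((K1 + 1 : ℕ) : ℝ) / Real.log ((K1 + 1 : ℕ) : ℝ) ≤ 2 * (c * x ^ k * y) / (y / 2) :=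
      div_le_div₀ (by positivity) h1 (by linarith) h2
    calc _ ≤ C3 * (2 * (c * x ^ k * y) / (y / 2)) * ((C3 / x) ^ k * (H : ℝ) ^ (2 * k)) :=
          mul_le_mul_of_nonneg_right (mul_le_mul_of_nonneg_left h3 (by linarith)) (by positivity)
      _ = 4 * c * C3 ^ (k + 1) * (H : ℝ) ^ (2 * k) := by
          rw [div_pow, pow_succ]; field_simp; ring
      _ = ε / 3 * (H : ℝ) ^ (2 * k) := by
          rw [hc]; field_simp; ring
  -- union
  set F1 : Finset (Fin k → ℕ × ℕ) := (Box s t H).filter (fun v => NoQ K v) with hF1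
  set F2 : Finset (Fin k → ℕ × ℕ) := (Box s t H).filter (fun v => ∃ q ∈ Icc 1 K, ∃ i, (v i).1 + q * (v i).2 ∈ PPw N) with hF2
  set F3 : Finset (Fin k → ℕ × ℕ) := (Box s t H).filter (fun v => ∃ q : ℕ, q ≤ K1 ∧ q.Prime ∧ ∀ i, ((v i).1 + q * (v i).2).Prime) with hF3
  have hc1 : (F1.card : ℝ) ≤ 4 * η * (H : ℝ) ^ (2 * k) := hB1 F1 fun v hv => by
    rw [hF1, Finset.mem_filter] at hv
    exact ⟨hv.1, hv.2.1, hv.2.2⟩
  have hsub : Exc s t H c C ⊆ F1 ∪ (F2 ∪ F3) := by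
    intro v hv
    have h1 := Finset.mem_filter.1 hv
    by_contra hnot
    rw [Finset.mem_union, Finset.mem_union, not_or, not_or] at hnot
    obtain ⟨n1, n2, n3⟩ := hnot
    have n1' : ∃ q ∈ Icc 1 K, q.Prime ∧ PM v q ≠ 0 := by
      by_contra hcon
      push Not at hcon
      apply n1
      rw [hF1, Finset.mem_filter]
      exact ⟨h1.1, h1.2.1, fun q hq hqp => hcon q hq hqp⟩
    obtain ⟨q, hq, hqp, hqn⟩ := n1'
    have hqK := (mem_Icc.1 hq)
    have hall : ∀ i, ((v i).1 + q * (v i).2).Prime := by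
      intro i
      by_contra hnp
      refine n2 (Finset.mem_filter.2 ⟨h1.1, q, hq, i, ?_⟩)
      have hbox : v i ∈ Ioc (s i) (s i + H) ×ˢ Ioc (t i) (t i + H) := by
        have := h1.1
        unfold Box at this
        exact Fintype.mem_piFinset.1 this i
      have hb := Finset.mem_product.1 hbox
      have hb1 := mem_Ioc.1 hb.1
      have hb2 := mem_Ioc.1 hb.2
      have hle : (v i).1 + q * (v i).2 ≤ N := by
        have h2 := Nat.mul_le_mul hqK.2 hb2.2
        have := hNall i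
        omega
      unfold PPw
      refine Finset.mem_filter.2 ⟨mem_Icc.2 ⟨by omega, hle⟩, hnp, ?_⟩
      unfold PM at hqn
      exact (Finset.prod_ne_zero_iff.1 hqn) i (Finset.mem_univ i)
    refine h1.2.2 ?_
    have hex : ∃ q : ℕ, q.Prime ∧ ∀ i, ((v i).1 + q * (v i).2).Prime := ⟨q, hqp, hall⟩
    refine ⟨Nat.find hex, ⟨Nat.find_spec hex, fun q' hq' => Nat.find_min' hex hq'⟩, ?_, ?_⟩
    · have h2 : K1 < Nat.find hex := by
        by_contra h3
        exact n3 (Finset.mem_filter.2 ⟨h1.1, Nat.find hex, by omega, Nat.find_spec hex⟩)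
      have h4 : c * x ^ k * y < (K1 : ℝ) + 1 := Nat.lt_floor_add_one _
      have h5 : ((K1 + 1 : ℕ) : ℝ) ≤ (Nat.find hex : ℕ) := by exact_mod_cast h2
      push_cast at h5
      linarith
    · have h2 : Nat.find hex ≤ K := (Nat.find_min' hex ⟨hqp, hall⟩).trans hqK.2
      have h3 : ((Nat.find hex : ℕ) : ℝ) ≤ K := by exact_mod_cast h2
      linarith
  have hu : ((Exc s t H c C).card : ℝ) ≤ F1.card + (F2.card + F3.card) := by
    have h1 := (Finset.card_le_card hsub).trans ((Finset.card_union_le _ _).trans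
      (Nat.add_le_add_left (Finset.card_union_le _ _) _))
    exact_mod_cast h1
  have e2 : (F2.card : ℝ) ≤ ε / 3 * (H : ℝ) ^ (2 * k) := hB2.trans hB2'
  have e3 : (F3.card : ℝ) ≤ ε / 3 * (H : ℝ) ^ (2 * k) := hB3.trans hB3'
  have e1 : (F1.card : ℝ) ≤ ε / 3 * (H : ℝ) ^ (2 * k) := hc1.trans (mul_le_mul_of_nonneg_right hηε (by positivity))
  linarith

end Pool.Agent.H570.LQ
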